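import Pool.Agent.Lib_MP_d3eb25_co.Data

/-!
Piece B: matroid facts about `exM` and the building set property of `exG`.
-/

namespace Pool.Agent.FlagChow

open MvPolynomial

theorem exM_E : exM.E = Set.univ := rfl

theorem exM_indep (I : Set (Fin 8)) : exM.Indep I ↔ I ≠ Set.univ := by
  simp [exM]

theorem exM_closure (X : Finset (Fin 8)) :
    exM.closure (X : Set (Fin 8)) = ((cl X : Finset (Fin 8)) : Set (Fin 8)) := by
  by_cases hX : X = Finset.univ
  · subst hX
    have h1 : cl (Finset.univ : Finset (Fin 8)) = Finset.univ := by decide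
    rw [h1, Finset.coe_univ, ← exM_E, Matroid.closure_ground]
  · have hI : exM.Indep (X : Set (Fin 8)) := by
      rw [exM_indep]
      intro h
      exact hX (by rw [← Finset.coe_univ] at h; exact Finset.coe_injective h)
    ext x
    rw [hI.mem_closure_iff', exM_indep, exM_E]
    have hins : (insert x (X : Set (Fin 8)) ≠ Set.univ) ↔ insert x X ≠ Finset.univ := by
      rw [← Finset.coe_insert, ← Finset.coe_univ, Ne, Ne, Finset.coe_inj]
    rw [hins]
    simp only [Set.mem_univ, true_and, Finset.mem_coe]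
    unfold cl
    split_ifs with hc
    · constructor
      · intro h
        apply h
        intro heq
        have h8 : (insert x X).card = 8 := by rw [heq]; rfl
        have := Finset.card_insert_le x X
        omega
      · intro h _
        exact h
    · simp only [Finset.mem_univ, iff_true]
      intro hne
      by_contra hx
      apply hne
      rw [← Finset.card_eq_iff_eq_univ, Finset.card_insert_of_notMem hx, Fintype.card_fin]
      have h1 : (insert x X).card ≤ Fintype.card (Fin 8) := Finset.card_le_univ _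
      rw [Finset.card_insert_of_notMem hx, Fintype.card_fin] at h1
      omega

theorem exM_isFlat (X : Finset (Fin 8)) : exM.IsFlat (X : Set (Fin 8)) ↔ cl X = X := by
  rw [Matroid.isFlat_iff_closure_eq, exM_closure, Finset.coe_inj]

theorem closure_small (Y : Set (Fin 8)) (h : Y.ncard ≤ 6) : exM.closure Y = Y := by
  classical
  have h1 : ((Y.toFinset : Finset (Fin 8)) : Set (Fin 8)) = Y := Set.coe_toFinset Y
  have h2 : Y.toFinset.card ≤ 6 := by rwa [← Set.ncard_eq_toFinset_card']
  have := exM_closure Y.toFinset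
  rw [cl, if_pos h2, h1] at this
  exact this

theorem closure_big (Y : Set (Fin 8)) (h : 6 < Y.ncard) : exM.closure Y = Set.univ := by
  classical
  have h1 : ((Y.toFinset : Finset (Fin 8)) : Set (Fin 8)) = Y := Set.coe_toFinset Y
  have h2 : ¬ Y.toFinset.card ≤ 6 := by rw [← Set.ncard_eq_toFinset_card']; omega
  have := exM_closure Y.toFinset
  rw [cl, if_neg h2, h1, Finset.coe_univ] at this
  exact this

theorem exM_closure_empty : exM.closure ∅ = ∅ := closure_small _ (by simp)

theorem exM_loopless : exM.Loopless := ⟨exM_closure_empty⟩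

theorem exM_eRank : exM.eRank = 7 := by
  have hI : exM.Indep ((({7} : Finset (Fin 8))ᶜ : Finset (Fin 8)) : Set (Fin 8)) := by
    rw [exM_indep]
    intro h
    have : (7 : Fin 8) ∈ ((({7} : Finset (Fin 8))ᶜ : Finset (Fin 8)) : Set (Fin 8)) :=
      h ▸ Set.mem_univ _
    simp at this
  have hB : exM.IsBase ((({7} : Finset (Fin 8))ᶜ : Finset (Fin 8)) : Set (Fin 8)) := by
    apply hI.isBase_of_ground_subset_closure
    rw [exM_closure, exM_E]
    have : cl (({7} : Finset (Fin 8))ᶜ) = Finset.univ := by decide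
    rw [this]
    simp
  rw [← hB.encard_eq_eRank, Set.encard_coe_eq_coe_finsetCard]
  rfl

theorem gs_flat (i : Fin 19) : cl (gs i) = gs i := by
  revert i; decide

theorem gs_ne (i : Fin 19) : gs i ≠ ∅ := by
  revert i; decide

theorem gs_join (i j : Fin 19) (h : (gs i ∩ gs j).Nonempty) : ∃ k, gs k = cl (gs i ∪ gs j) := by
  revert i j; decide

theorem gs_single (x : Fin 8) : ∃ k, gs k = {x} := by
  revert x; decide

theorem mem_exG {A : Set (Fin 8)} : A ∈ exG ↔ ∃ i, ((gs i : Finset (Fin 8)) : Set (Fin 8)) = A :=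
  Iff.rfl

theorem univ_mem_exG : (Set.univ : Set (Fin 8)) ∈ exG := by
  refine ⟨18, ?_⟩
  have : gs 18 = Finset.univ := by decide
  simp [this]

theorem exG_isFlat : ∀ G ∈ exG, exM.IsFlat G := by
  rintro _ ⟨i, rfl⟩
  exact (exM_isFlat _).2 (gs_flat i)

theorem flat_inter {A B : Set (Fin 8)} (hA : exM.IsFlat A) (hB : exM.IsFlat B) :
    exM.IsFlat (A ∩ B) := by
  rw [Matroid.isFlat_iff_closure_eq]
  apply subset_antisymm
  · apply Set.subset_inter
    · have := exM.closure_subset_closure (Set.inter_subset_left (s := A) (t := B))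
      rwa [hA.closure] at this
    · have := exM.closure_subset_closure (Set.inter_subset_right (s := A) (t := B))
      rwa [hB.closure] at this
  · exact exM.subset_closure _ (Set.subset_univ _)

section iso
variable {X : Set (Fin 8)} (hX : exM.IsFlat X)

include hX in
theorem max_disj {A B : Set (Fin 8)} (hA : A ∈ maxBelow exG X) (hB : B ∈ maxBelow exG X)
    (h : (A ∩ B).Nonempty) : A = B := by
  obtain ⟨⟨⟨i, rfl⟩, hAX⟩, hAm⟩ := hA
  obtain ⟨⟨⟨j, rfl⟩, hBX⟩, hBm⟩ := hB
  dsimp only at *
  have hne : (gs i ∩ gs j).Nonempty := by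
    rw [← Finset.coe_inter] at h
    exact_mod_cast h
  obtain ⟨k, hk⟩ := gs_join i j hne
  have hkc : ((gs k : Finset (Fin 8)) : Set (Fin 8)) =
      exM.closure (((gs i : Finset (Fin 8)) : Set (Fin 8)) ∪ ((gs j : Finset (Fin 8)) : Set (Fin 8))) := by
    rw [hk, ← exM_closure, Finset.coe_union]
  have hkX : ((gs k : Finset (Fin 8)) : Set (Fin 8)) ⊆ X := by
    rw [hkc]
    have := exM.closure_subset_closure (Set.union_subset hAX hBX)
    rwa [hX.closure] at this
  have hsub : ((gs i : Finset (Fin 8)) : Set (Fin 8)) ∪ ((gs j : Finset (Fin 8)) : Set (Fin 8)) ⊆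
      ((gs k : Finset (Fin 8)) : Set (Fin 8)) := by
    rw [hkc]
    exact exM.subset_closure _ (Set.subset_univ _)
  have hmem : ((gs k : Finset (Fin 8)) : Set (Fin 8)) ∈ exG := ⟨k, rfl⟩
  have e1 := hAm (y := ((gs k : Finset (Fin 8)) : Set (Fin 8))) ⟨hmem, hkX⟩
    (Set.subset_union_left.trans hsub)
  have e2 := hBm (y := ((gs k : Finset (Fin 8)) : Set (Fin 8))) ⟨hmem, hkX⟩
    (Set.subset_union_right.trans hsub)
  have f1 := Set.subset_union_left.trans hsub
  have f2 := Set.subset_union_right.trans hsub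
  exact (subset_antisymm f1 e1).trans (subset_antisymm f2 e2).symm

theorem max_cover {x : Fin 8} (hx : x ∈ X) : ∃ A ∈ maxBelow exG X, x ∈ A := by
  obtain ⟨k, hk⟩ := gs_single x
  have hfin : {H : Set (Fin 8) | H ∈ exG ∧ H ⊆ X}.Finite := Set.toFinite _
  have hmem : ((gs k : Finset (Fin 8)) : Set (Fin 8)) ∈ {H : Set (Fin 8) | H ∈ exG ∧ H ⊆ X} := by
    refine ⟨⟨k, rfl⟩, ?_⟩
    rw [hk]
    simpa using hx
  obtain ⟨A, hA1, hA2⟩ := hfin.exists_le_maximal hmem
  refine ⟨A, hA2, ?_⟩
  apply hA1
  rw [hk]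
  simp

include hX in
theorem flat_union (f : (G : maxBelow exG X) → FlatsBelow exM (G : Set (Fin 8))) :
    exM.closure (⋃ G, (f G : Set (Fin 8))) = ⋃ G, (f G : Set (Fin 8)) := by
  by_cases hc : (⋃ G, (f G : Set (Fin 8))).ncard ≤ 6
  · exact closure_small _ hc
  · have hUX : (⋃ G, (f G : Set (Fin 8))) ⊆ X := by
      apply Set.iUnion_subset
      intro G
      exact (f G).2.2.trans G.2.1.2
    have hXc : 6 < X.ncard := by
      have := Set.ncard_le_ncard hUX (Set.toFinite _)
      omega
    have hXu : X = Set.univ := by rw [← hX.closure]; exact closure_big _ hXc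
    subst hXu
    have hone : ∀ G : maxBelow exG Set.univ, (G : Set (Fin 8)) = Set.univ := by
      intro G
      have := G.2.2 (y := Set.univ) ⟨univ_mem_exG, subset_rfl⟩ (Set.subset_univ _)
      exact Set.eq_univ_of_univ_subset this
    have hu : (Set.univ : Set (Fin 8)) ∈ maxBelow exG Set.univ :=
      ⟨⟨univ_mem_exG, subset_rfl⟩, fun _ _ _ => Set.subset_univ _⟩
    have : (⋃ G, (f G : Set (Fin 8))) = (f ⟨Set.univ, hu⟩ : Set (Fin 8)) := by
      apply subset_antisymm
      · apply Set.iUnion_subset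
        intro G
        have : G = ⟨Set.univ, hu⟩ := Subtype.ext (hone G)
        subst this
        exact subset_rfl
      · exact Set.subset_iUnion (fun G => (f G : Set (Fin 8))) ⟨Set.univ, hu⟩
    rw [this]
    exact (f ⟨Set.univ, hu⟩).2.1.closure

include hX in
theorem union_inter (f : (G : maxBelow exG X) → FlatsBelow exM (G : Set (Fin 8)))
    (G : maxBelow exG X) : (⋃ G, (f G : Set (Fin 8))) ∩ (G : Set (Fin 8)) = (f G : Set (Fin 8)) := by
  apply subset_antisymm
  · rintro x ⟨hx, hxG⟩
    obtain ⟨G', hG'⟩ := Set.mem_iUnion.1 hx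
    have : (G' : Set (Fin 8)) = (G : Set (Fin 8)) :=
      max_disj hX G'.2 G.2 ⟨x, (f G').2.2 hG', hxG⟩
    have : G' = G := Subtype.ext this
    subst this
    exact hG'
  · intro x hx
    exact ⟨Set.mem_iUnion.2 ⟨G, hx⟩, (f G).2.2 hx⟩

theorem union_of_inter (Y : Set (Fin 8)) (hY : Y ⊆ X) :
    (⋃ G : maxBelow exG X, Y ∩ (G : Set (Fin 8))) = Y := by
  apply subset_antisymm
  · apply Set.iUnion_subset
    intro G
    exact Set.inter_subset_left
  · intro x hx
    obtain ⟨A, hA, hxA⟩ := max_cover (hY hx)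
    exact Set.mem_iUnion.2 ⟨⟨A, hA⟩, hx, hxA⟩

/-- the join isomorphism -/
noncomputable def joinIso (hX : exM.IsFlat X) :
    ((G : maxBelow exG X) → FlatsBelow exM (G : Set (Fin 8))) ≃o FlatsBelow exM X where
  toFun f := ⟨⋃ G, (f G : Set (Fin 8)), by
    constructor
    · rw [Matroid.isFlat_iff_closure_eq]
      exact flat_union hX f
    · apply Set.iUnion_subset
      intro G
      exact (f G).2.2.trans G.2.1.2⟩
  invFun Y G := ⟨(Y : Set (Fin 8)) ∩ (G : Set (Fin 8)),
    flat_inter Y.2.1 (exG_isFlat _ G.2.1.1), Set.inter_subset_right⟩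
  left_inv f := by
    funext G
    exact Subtype.ext (union_inter hX f G)
  right_inv Y := by
    exact Subtype.ext (union_of_inter Y.1 Y.2.2)
  map_rel_iff' := by
    intro f g
    constructor
    · intro h G
      have h' : (⋃ G, (f G : Set (Fin 8))) ⊆ ⋃ G, (g G : Set (Fin 8)) := h
      change (f G : Set (Fin 8)) ⊆ (g G : Set (Fin 8))
      rw [← union_inter hX f G, ← union_inter hX g G]
      exact Set.inter_subset_inter_left _ h'
    · intro h
      change (⋃ G, (f G : Set (Fin 8))) ⊆ ⋃ G, (g G : Set (Fin 8))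
      apply Set.iUnion_mono
      intro G
      exact h G

end iso

theorem ex_building : IsBuildingSet exM exG where
  isFlat := exG_isFlat
  bot_notMem := by
    rw [exM_closure_empty]
    rintro ⟨i, hi⟩
    exact gs_ne i (by simpa using hi)
  join_iso X hX _ := by
    refine ⟨joinIso hX, ?_⟩
    intro f
    exact (flat_union hX f).symm

end Pool.Agent.FlagChow
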