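import Pool.Agent.Lib_MP_d3eb25_co.Defs

/-!
The counterexample: the uniform matroid of rank 7 on 8 elements. The elements are grouped in four
pairs `P₀ = {0,1}`, `P₁ = {2,3}`, `P₂ = {4,5}`, `P₃ = {6,7}`; the building set consists of the eight
singletons, the four pairs, `P₀ ∪ P₁`, `P₂ ∪ P₃`, the four complements of pairs, and everything.
-/

namespace Pool.Agent.FlagChow

open MvPolynomial

/-- The nineteen members of the building set. -/
def gs : Fin 19 → Finset (Fin 8) :=
  ![{0}, {1}, {2}, {3}, {4}, {5}, {6}, {7},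
    {0, 1}, {2, 3}, {4, 5}, {6, 7},
    {0, 1, 2, 3}, {4, 5, 6, 7},
    {2, 3, 4, 5, 6, 7}, {0, 1, 4, 5, 6, 7}, {0, 1, 2, 3, 6, 7}, {0, 1, 2, 3, 4, 5},
    {0, 1, 2, 3, 4, 5, 6, 7}]

/-- The closure operator of the matroid `exM`: sets with at most six elements are flats. -/
def cl (s : Finset (Fin 8)) : Finset (Fin 8) := if s.card ≤ 6 then s else Finset.univ

/-- The pair `{gs i, gs j}` is not nested. -/
def nonNested (i j : Fin 19) : Bool :=
  decide (¬ gs i ⊆ gs j ∧ ¬ gs j ⊆ gs i ∧ ∃ k, cl (gs i ∪ gs j) = gs k)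

/-- The building set. -/
def exG : Set (Set (Fin 8)) := Set.range fun i => ((gs i : Finset (Fin 8)) : Set (Fin 8))

/-- The uniform matroid of rank `7` on `Fin 8`. -/
def exM : Matroid (Fin 8) :=
  (IndepMatroid.ofFinite (E := (Set.univ : Set (Fin 8))) Set.finite_univ (fun I => I ≠ Set.univ)
    (by
      intro h
      have : (0 : Fin 8) ∈ (∅ : Set (Fin 8)) := h ▸ Set.mem_univ 0
      exact this)
    (by
      intro I J hJ hIJ hI
      exact hJ (Set.eq_univ_of_univ_subset (hI ▸ hIJ)))
    (by
      intro I J hI hJ hlt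
      have hJ7 : J.ncard < 8 := by
        have h := Set.ncard_lt_ncard (Set.ssubset_univ_iff.2 hJ) Set.finite_univ
        simpa [Set.ncard_univ] using h
      obtain ⟨e, heJ, heI⟩ := Set.exists_mem_notMem_of_ncard_lt_ncard hlt
      refine ⟨e, heJ, heI, fun h => ?_⟩
      have h1 : (insert e I).ncard ≤ I.ncard + 1 := Set.ncard_insert_le e I
      have h2 : (insert e I).ncard = 8 := by
        rw [h, Set.ncard_univ]; simp
      omega)
    (fun I _ => Set.subset_univ I)).matroid

/-- The Hilbert function of the Chow ring of the example. -/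
def hh (k : ℕ) : ℕ := [1, 11, 37, 55, 37, 11, 1].getD k 0

/-- The relations of the Chow ring in nineteen variables. -/
def rel19 : Set (MvPolynomial (Fin 19) ℚ) :=
  {p | ∃ i j : Fin 19, nonNested i j = true ∧ p = X i * X j} ∪
  {p | ∃ a : Fin 8, p = ∑ i : Fin 19, if a ∈ gs i then X i else 0}

/-- The degree `k` part of the Chow ring of the example, in nineteen variables. -/
noncomputable def piece19 (k : ℕ) :
    Submodule ℚ (MvPolynomial (Fin 19) ℚ ⧸ (Ideal.span rel19 : Ideal (MvPolynomial (Fin 19) ℚ))) :=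
  Submodule.map (Ideal.Quotient.mkₐ ℚ (Ideal.span rel19)).toLinearMap
    (homogeneousSubmodule (Fin 19) ℚ k)

end Pool.Agent.FlagChow
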