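import Mathlib

/-!
Definitions for MP_d3eb25_co: built lattices, flag building sets, Feichtner-Yuzvinsky Chow rings,
Chow polynomials, gamma vectors and simplicial complexes.
-/

namespace Pool.Agent.FlagChow

open MvPolynomial

variable {α : Type*}

/-- The flats of `M` contained in `X`, ordered by inclusion. For a flat `X` this is the interval
`[0, X]` of the lattice of flats of `M`. -/
abbrev FlatsBelow (M : Matroid α) (X : Set α) : Type _ := {F : Set α // M.IsFlat F ∧ F ⊆ X}

/-- The maximal members of `𝒢` below `X`. -/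
def maxBelow (𝒢 : Set (Set α)) (X : Set α) : Set (Set α) :=
  {G | Maximal (fun H => H ∈ 𝒢 ∧ H ⊆ X) G}

/-- `𝒢` is a building set of the lattice of flats of `M`: it consists of flats different from the
bottom flat, and for every flat `X` other than the bottom flat, with `G₁, …, Gₖ` the maximal members
of `𝒢` below `X`, the join map `∏ [0, Gⱼ] → [0, X]` is an isomorphism of partially ordered sets.
(The join of a family of flats is the closure of its union.) -/
structure IsBuildingSet (M : Matroid α) (𝒢 : Set (Set α)) : Prop where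
  isFlat : ∀ G ∈ 𝒢, M.IsFlat G
  bot_notMem : M.closure ∅ ∉ 𝒢
  join_iso : ∀ X, M.IsFlat X → X ≠ M.closure ∅ →
    ∃ e : ((G : maxBelow 𝒢 X) → FlatsBelow M (G : Set α)) ≃o FlatsBelow M X,
      ∀ f, (e f : Set α) = M.closure (⋃ G, (f G : Set α))

/-- `S ⊆ 𝒢` is nested: for all `k ≥ 2` pairwise incomparable members of `S`, their join is not
in `𝒢`. -/
def IsNested (M : Matroid α) (𝒢 S : Set (Set α)) : Prop :=
  S ⊆ 𝒢 ∧ ∀ T ⊆ S, T.Nontrivial → IsAntichain (· ⊆ ·) T → M.closure (⋃₀ T) ∉ 𝒢

/-- `𝒢` is a flag building set: it is a building set and a subset of `𝒢` is nested whenever all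
its subsets with at most two elements are nested. -/
def IsFlagBuildingSet (M : Matroid α) (𝒢 : Set (Set α)) : Prop :=
  IsBuildingSet M 𝒢 ∧
    ∀ S ⊆ 𝒢, (∀ A ∈ S, ∀ B ∈ S, IsNested M 𝒢 {A, B}) → IsNested M 𝒢 S

/-- The generators of the ideal `I + J` of the Feichtner-Yuzvinsky presentation: the products of
the variables of a non-nested set, and for each atom `a` (the closure of one element of the ground
set; `M` is loopless in our use) the sum of the variables `x_G` with `a ≤ G`. -/
def chowRelations (M : Matroid α) (𝒢 : Set (Set α)) : Set (MvPolynomial 𝒢 ℚ) :=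
  {p | ∃ S : Finset 𝒢, ¬ IsNested M 𝒢 {G | ∃ g ∈ S, (g : Set α) = G} ∧ p = ∏ G ∈ S, X G} ∪
  {p | ∃ a ∈ M.E, p = ∑ᶠ (G : 𝒢) (_ : M.closure {a} ⊆ (G : Set α)), X G}

/-- The ideal `I + J`. -/
noncomputable def chowIdeal (M : Matroid α) (𝒢 : Set (Set α)) : Ideal (MvPolynomial 𝒢 ℚ) :=
  Ideal.span (chowRelations M 𝒢)

/-- The Hilbert function of the Chow ring `ℚ[x_G : G ∈ 𝒢] / (I + J)`: the dimension of the image of
the space of homogeneous polynomials of degree `k`. -/
noncomputable def hilbert (M : Matroid α) (𝒢 : Set (Set α)) (k : ℕ) : ℕ :=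
  Module.finrank ℚ (Submodule.map (Ideal.Quotient.mkₐ ℚ (chowIdeal M 𝒢)).toLinearMap
    (homogeneousSubmodule 𝒢 ℚ k))

/-- The Hilbert-Poincare series of the Chow ring. -/
noncomputable def chowSeries (M : Matroid α) (𝒢 : Set (Set α)) : PowerSeries ℤ :=
  PowerSeries.mk fun k => (hilbert M 𝒢 k : ℤ)

/-- `γ` is the gamma vector of `H` with centre of symmetry `d / 2`:
`H = ∑_{i ≤ d/2} γᵢ tⁱ (1 + t)^(d - 2 i)`, and `γᵢ = 0` for `i > d / 2`. -/
def IsGammaVector (H : PowerSeries ℤ) (d : ℕ) (γ : ℕ → ℤ) : Prop :=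
  (∀ i, d < 2 * i → γ i = 0) ∧
  H = ((∑ i ∈ Finset.range (d / 2 + 1),
    Polynomial.C (γ i) * Polynomial.X ^ i * (1 + Polynomial.X) ^ (d - 2 * i) : Polynomial ℤ) :
      PowerSeries ℤ)

/-- An abstract simplicial complex with vertices in `V`, with the empty face included. -/
structure Complex (V : Type*) where
  faces : Set (Finset V)
  empty_mem : ∅ ∈ faces
  down_closed : ∀ s ∈ faces, ∀ t ⊆ s, t ∈ faces

/-- `fvec Δ i` is the number of faces of `Δ` with exactly `i` vertices. -/
noncomputable def Complex.fvec {V : Type*} (Δ : Complex V) (i : ℕ) : ℕ :=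
  {s ∈ Δ.faces | s.card = i}.ncard

end Pool.Agent.FlagChow
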