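import Pool.Agent.Lib_MP_d3eb25_co.Data

/-!
Nested pairs of the example and the flag property, by a verified search over the cliques of the
compatibility graph (sets are encoded as bit masks).
-/

namespace Pool.Agent.FlagChow

open MvPolynomial

/-- bit masks of the members of the building set -/
def mk19 : Fin 19 → ℕ :=
  ![1, 2, 4, 8, 16, 32, 64, 128, 3, 12, 48, 192, 15, 240, 252, 243, 207, 63, 255]

/-- the compatibility graph -/
def adj19 : Fin 19 → ℕ :=
  ![12028, 12028, 11763, 11763, 7119, 7119, 5951, 5951, 3324, 3315, 975, 831, 240, 15,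
    0, 0, 0, 0, 0]

/-- the mask `M` encodes the set `s` -/
def Rep (M : ℕ) (s : Finset (Fin 8)) : Prop := ∀ a : Fin 8, M.testBit a = decide (a ∈ s)

theorem rep_mk19 : ∀ i : Fin 19, Rep (mk19 i) (gs i) := by
  unfold Rep; decide

theorem Rep.union {M N : ℕ} {s t : Finset (Fin 8)} (h1 : Rep M s) (h2 : Rep N t) :
    Rep (M ||| N) (s ∪ t) := by
  intro a
  rw [Nat.testBit_lor, h1 a, h2 a]
  by_cases h3 : a ∈ s <;> by_cases h4 : a ∈ t <;> simp [h3, h4]

theorem Rep.eq {M : ℕ} {s t : Finset (Fin 8)} (h1 : Rep M s) (h2 : Rep M t) : s = t := by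
  ext a
  have := (h1 a).symm.trans (h2 a)
  simpa using this

/-- masks of the sets whose closure is in the building set -/
def badMask (M : ℕ) : Bool :=
  (List.finRange 19).any (fun k => M == mk19 k) ||
    (List.finRange 8).any (fun a => M == 255 - 2 ^ (a : ℕ))

theorem cl_of_large {s : Finset (Fin 8)} (h : 6 < s.card) : cl s = Finset.univ := by
  rw [cl, if_neg (by omega)]

/-- the sets with seven elements -/
theorem eq_compl_of_card {s : Finset (Fin 8)} (h : 6 < s.card) :
    s = Finset.univ ∨ ∃ a : Fin 8, s = Finset.univ.erase a := by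
  by_cases h8 : s = Finset.univ
  · exact Or.inl h8
  · right
    obtain ⟨a, ha⟩ : ∃ a, a ∉ s := by
      by_contra hcon
      push Not at hcon
      exact h8 (Finset.eq_univ_iff_forall.2 hcon)
    refine ⟨a, Finset.eq_of_subset_of_card_le ?_ ?_⟩
    · intro x hx
      exact Finset.mem_erase.2 ⟨fun hxa => ha (hxa ▸ hx), Finset.mem_univ _⟩
    · rw [Finset.card_erase_of_mem (Finset.mem_univ _)]
      simp; omega

theorem rep_univ : Rep 255 (Finset.univ : Finset (Fin 8)) := by unfold Rep; decide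

theorem rep_erase : ∀ a : Fin 8, Rep (255 - 2 ^ (a : ℕ)) (Finset.univ.erase a) := by
  unfold Rep; decide

/-- a mask below 256 is determined by its set -/
theorem Rep.mask_eq {M N : ℕ} {s : Finset (Fin 8)} (h1 : Rep M s) (h2 : Rep N s)
    (hM : M < 256) (hN : N < 256) : M = N := by
  apply Nat.eq_of_testBit_eq
  intro i
  by_cases hi : i < 8
  · exact (h1 ⟨i, hi⟩).trans (h2 ⟨i, hi⟩).symm
  · have h3 : (256 : ℕ) ≤ 2 ^ i := by
      calc (256 : ℕ) = 2 ^ 8 := by norm_num
        _ ≤ 2 ^ i := Nat.pow_le_pow_right (by norm_num) (by omega)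
    rw [Nat.testBit_lt_two_pow (lt_of_lt_of_le hM h3),
      Nat.testBit_lt_two_pow (lt_of_lt_of_le hN h3)]

theorem mk19_lt : ∀ i : Fin 19, mk19 i < 256 := by decide

theorem badMask_of {M : ℕ} {s : Finset (Fin 8)} (h : Rep M s) (hM : M < 256)
    {k : Fin 19} (hk : cl s = gs k) : badMask M = true := by
  rw [badMask, Bool.or_eq_true, List.any_eq_true, List.any_eq_true]
  by_cases hs : s.card ≤ 6
  · left
    rw [cl, if_pos hs] at hk
    refine ⟨k, List.mem_finRange k, ?_⟩
    rw [beq_iff_eq]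
    exact h.mask_eq (hk ▸ rep_mk19 k) hM (mk19_lt k)
  · rcases eq_compl_of_card (not_le.1 hs) with h8 | ⟨a, ha⟩
    · left
      refine ⟨18, List.mem_finRange _, ?_⟩
      rw [beq_iff_eq]
      exact h.mask_eq (h8 ▸ rep_univ) hM (mk19_lt 18)
    · right
      refine ⟨a, List.mem_finRange _, ?_⟩
      rw [beq_iff_eq]
      exact h.mask_eq (ha ▸ rep_erase a) hM (lt_of_le_of_lt (Nat.sub_le _ _) (by norm_num))

/-- the search -/
def chk : ℕ → List (Fin 19) → ℕ → ℕ → Bool
  | 0, _, _, _ => false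
  | _ + 1, [], M, n => Nat.blt n 2 || (Nat.blt M 256 && !badMask M)
  | f + 1, x :: l, M, n =>
    chk f l M n && chk f (l.filter fun y => (adj19 x).testBit y) (M ||| mk19 x) (n + 1)

theorem chk_spec : ∀ (f : ℕ) (l : List (Fin 19)) (M n : ℕ) (s : Finset (Fin 8)),
    chk f l M n = true → Rep M s → ∀ I : Finset (Fin 19), (∀ i ∈ I, i ∈ l) →
      (∀ i ∈ I, ∀ j ∈ I, i ≠ j → (adj19 i).testBit j = true) → 2 ≤ n + I.card →
      ∀ k, cl (s ∪ I.biUnion gs) ≠ gs k := by
  intro f
  induction f with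
  | zero => intro l M n s h; simp [chk] at h
  | succ f ih =>
    intro l M n s h hM I hI hadj hcard k hk
    cases l with
    | nil =>
      have hI0 : I = ∅ := Finset.eq_empty_of_forall_notMem fun i hi => by simpa using hI i hi
      subst hI0
      rw [Finset.biUnion_empty, Finset.union_empty] at hk
      rw [Finset.card_empty] at hcard
      simp only [chk, Bool.or_eq_true, Bool.and_eq_true, Bool.not_eq_true'] at h
      rcases h with h | ⟨h1, h2⟩
      · rw [Nat.blt_eq] at h; omega
      · rw [Nat.blt_eq] at h1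
        rw [badMask_of hM h1 hk] at h2
        exact absurd h2 (by simp)
    | cons x l =>
      simp only [chk, Bool.and_eq_true] at h
      by_cases hx : x ∈ I
      · refine ih _ _ _ (s ∪ gs x) h.2 (hM.union (rep_mk19 x)) (I.erase x) ?_ ?_ ?_ k ?_
        · intro i hi
          rw [Finset.mem_erase] at hi
          rw [List.mem_filter]
          refine ⟨?_, hadj x hx i hi.2 (Ne.symm hi.1)⟩
          rcases List.mem_cons.1 (hI i hi.2) with h3 | h3
          · exact absurd h3 hi.1
          · exact h3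
        · intro i hi j hj hij
          exact hadj i (Finset.mem_of_mem_erase hi) j (Finset.mem_of_mem_erase hj) hij
        · have := Finset.card_erase_add_one hx
          omega
        · rw [← hk]
          congr 1
          rw [Finset.union_assoc]
          congr 1
          conv_rhs => rw [← Finset.insert_erase hx, Finset.biUnion_insert]
      · refine ih _ _ _ s h.1 hM I ?_ hadj hcard k hk
        intro i hi
        rcases List.mem_cons.1 (hI i hi) with h3 | h3
        · exact absurd (h3 ▸ hi) hx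
        · exact h3

set_option maxRecDepth 100000 in
theorem chk_true : chk 20 (List.finRange 19) 0 0 = true := by decide +kernel

/-- pairs which are not adjacent -/
def nadj (i j : Fin 19) : Bool :=
  (mk19 i ||| mk19 j == mk19 j) || (mk19 i ||| mk19 j == mk19 i) || badMask (mk19 i ||| mk19 j)

theorem adj_of : ∀ i j : Fin 19, i ≠ j → nadj i j = false → (adj19 i).testBit j = true := by
  decide +kernel

theorem cl_of_badMask {M : ℕ} {s : Finset (Fin 8)} (h : Rep M s) (hb : badMask M = true) :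
    ∃ k, cl s = gs k := by
  rw [badMask, Bool.or_eq_true, List.any_eq_true, List.any_eq_true] at hb
  rcases hb with ⟨k, -, hk⟩ | ⟨a, -, ha⟩
  · rw [beq_iff_eq] at hk
    subst hk
    have h1 : s = gs k := h.eq (rep_mk19 k)
    by_cases h6 : s.card ≤ 6
    · exact ⟨k, by rw [cl, if_pos h6, h1]⟩
    · exact ⟨18, by rw [cl_of_large (not_le.1 h6)]; decide⟩
  · rw [beq_iff_eq] at ha
    subst ha
    have h1 := h.eq (rep_erase a)
    refine ⟨18, ?_⟩
    rw [cl_of_large]
    · decide
    · rw [h1, Finset.card_erase_of_mem (Finset.mem_univ _)]; simp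

theorem adj_of_compat {i j : Fin 19} (hij : i ≠ j) (h1 : ¬ gs i ⊆ gs j) (h2 : ¬ gs j ⊆ gs i)
    (h3 : ∀ k, cl (gs i ∪ gs j) ≠ gs k) : (adj19 i).testBit j = true := by
  refine adj_of i j hij ?_
  rw [nadj, Bool.or_eq_false_iff, Bool.or_eq_false_iff]
  have hu := (rep_mk19 i).union (rep_mk19 j)
  refine ⟨⟨?_, ?_⟩, ?_⟩
  · rw [beq_eq_false_iff_ne]
    intro h
    rw [h] at hu
    apply h1
    have e := (rep_mk19 j).eq hu
    calc gs i ⊆ gs i ∪ gs j := Finset.subset_union_left
      _ = gs j := e.symm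
  · rw [beq_eq_false_iff_ne]
    intro h
    rw [h] at hu
    apply h2
    have e := (rep_mk19 i).eq hu
    calc gs j ⊆ gs i ∪ gs j := Finset.subset_union_right
      _ = gs i := e.symm
  · by_contra h
    rw [Bool.not_eq_false] at h
    obtain ⟨k, hk⟩ := cl_of_badMask hu h
    exact h3 k hk

/-- The flag property, combinatorial form. -/
theorem flag_comb (I : Finset (Fin 19)) (hI : 2 ≤ I.card)
    (h : ∀ i ∈ I, ∀ j ∈ I, i ≠ j → ¬ gs i ⊆ gs j ∧ ∀ k, cl (gs i ∪ gs j) ≠ gs k) (k : Fin 19) :
    cl (I.biUnion gs) ≠ gs k := by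
  have h1 := chk_spec 20 (List.finRange 19) 0 0 ∅ chk_true (by intro a; simp) I
    (fun i _ => List.mem_finRange i) ?_ (by omega) k
  · rwa [Finset.empty_union] at h1
  · intro i hi j hj hij
    exact adj_of_compat hij (h i hi j hj hij).1 (h j hj i hi hij.symm).1 (h i hi j hj hij).2

theorem gs_inj : ∀ i j : Fin 19, gs i = gs j → i = j := by decide

section

/-- The flag property and nested pairs, given the closure operator (`exM_closure` of piece B). -/
theorem ex_nested_pair' (hcl : ∀ X : Finset (Fin 8),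
    exM.closure (X : Set (Fin 8)) = ((cl X : Finset (Fin 8)) : Set (Fin 8)))
    (i j : Fin 19) (hij : i ≠ j) :
    IsNested exM exG {((gs i : Finset (Fin 8)) : Set (Fin 8)), ((gs j : Finset (Fin 8)) : Set (Fin 8))}
      ↔ nonNested i j = false := by
  have hne : gs i ≠ gs j := fun h => hij (gs_inj i j h)
  have hneS : ((gs i : Finset (Fin 8)) : Set (Fin 8)) ≠ ((gs j : Finset (Fin 8)) : Set (Fin 8)) :=
    fun h => hne (Finset.coe_injective h)
  have hun : exM.closure (((gs i : Finset (Fin 8)) : Set (Fin 8)) ∪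
      ((gs j : Finset (Fin 8)) : Set (Fin 8))) = ((cl (gs i ∪ gs j) : Finset (Fin 8)) : Set (Fin 8)) := by
    rw [← Finset.coe_union, hcl]
  rw [nonNested, decide_eq_false_iff_not]
  constructor
  · rintro ⟨-, h⟩ ⟨h1, h2, k, hk⟩
    have h3 := h _ Set.Subset.rfl (Set.nontrivial_pair hneS) (by
      intro a ha b hb hab hle
      rcases ha with rfl | ha <;> rcases hb with rfl | hb
      · exact hab rfl
      · rw [Set.mem_singleton_iff] at hb; subst hb
        exact h1 (Finset.coe_subset.1 hle)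
      · rw [Set.mem_singleton_iff] at ha; subst ha
        exact h2 (Finset.coe_subset.1 hle)
      · rw [Set.mem_singleton_iff] at ha hb; subst ha; subst hb
        exact hab rfl)
    rw [Set.sUnion_pair, hun] at h3
    exact h3 ⟨k, by rw [hk]⟩
  · intro h
    refine ⟨?_, ?_⟩
    · rintro _ (rfl | rfl)
      · exact ⟨i, rfl⟩
      · exact ⟨j, rfl⟩
    · intro T hT hTn hTa hmem
      obtain ⟨a, ha, b, hb, hab⟩ := hTn
      have hmemT : (((gs i : Finset (Fin 8)) : Set (Fin 8)) ∈ T ∧
          ((gs j : Finset (Fin 8)) : Set (Fin 8)) ∈ T) := by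
        rcases hT ha with ha' | ha' <;> rcases hT hb with hb' | hb'
        · exact absurd (ha'.trans hb'.symm) hab
        · rw [Set.mem_singleton_iff] at hb'; exact ⟨ha' ▸ ha, hb' ▸ hb⟩
        · rw [Set.mem_singleton_iff] at ha'; exact ⟨hb' ▸ hb, ha' ▸ ha⟩
        · rw [Set.mem_singleton_iff] at ha' hb'; exact absurd (ha'.trans hb'.symm) hab
      have hTeq : T = {((gs i : Finset (Fin 8)) : Set (Fin 8)),
          ((gs j : Finset (Fin 8)) : Set (Fin 8))} := by
        refine Set.Subset.antisymm hT ?_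
        rintro _ (rfl | rfl)
        · exact hmemT.1
        · exact hmemT.2
      rw [hTeq, Set.sUnion_pair, hun] at hmem
      obtain ⟨k, hk⟩ := hmem
      refine h ⟨fun hle => ?_, fun hle => ?_, k, (Finset.coe_injective hk).symm⟩
      · exact hTa hmemT.1 hmemT.2 hneS (Finset.coe_subset.2 hle)
      · exact hTa hmemT.2 hmemT.1 hneS.symm (Finset.coe_subset.2 hle)

theorem ex_flag' (hcl : ∀ X : Finset (Fin 8),
    exM.closure (X : Set (Fin 8)) = ((cl X : Finset (Fin 8)) : Set (Fin 8))) :
    ∀ S ⊆ exG, (∀ A ∈ S, ∀ B ∈ S, IsNested exM exG {A, B}) → IsNested exM exG S := by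
  classical
  intro S hS hpair
  refine ⟨hS, ?_⟩
  intro T hT hTn hTa hmem
  set I : Finset (Fin 19) := Finset.univ.filter fun i => ((gs i : Finset (Fin 8)) : Set (Fin 8)) ∈ T
    with hIdef
  have hmemI : ∀ i, i ∈ I ↔ ((gs i : Finset (Fin 8)) : Set (Fin 8)) ∈ T := fun i => by
    rw [hIdef, Finset.mem_filter]; simp
  have hUn : ⋃₀ T = ((I.biUnion gs : Finset (Fin 8)) : Set (Fin 8)) := by
    ext x
    rw [Set.mem_sUnion, Finset.mem_coe, Finset.mem_biUnion]
    constructor
    · rintro ⟨t, ht, hx⟩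
      obtain ⟨i, rfl⟩ := hS (hT ht)
      exact ⟨i, (hmemI i).2 ht, hx⟩
    · rintro ⟨i, hi, hx⟩
      exact ⟨_, (hmemI i).1 hi, hx⟩
  have hcard : 2 ≤ I.card := by
    obtain ⟨a, ha, b, hb, hab⟩ := hTn
    obtain ⟨i, rfl⟩ := hS (hT ha)
    obtain ⟨j, rfl⟩ := hS (hT hb)
    have hij : i ≠ j := fun h => hab (by rw [h])
    exact Finset.one_lt_card.2 ⟨i, (hmemI i).2 ha, j, (hmemI j).2 hb, hij⟩
  rw [hUn, hcl] at hmem
  obtain ⟨k, hk⟩ := hmem
  refine flag_comb I hcard ?_ k (Finset.coe_injective hk).symm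
  intro i hi j hj hij
  have hi' := (hmemI i).1 hi
  have hj' := (hmemI j).1 hj
  have hneS : ((gs i : Finset (Fin 8)) : Set (Fin 8)) ≠ ((gs j : Finset (Fin 8)) : Set (Fin 8)) :=
    fun h => hij (gs_inj i j (Finset.coe_injective h))
  have h1 : ¬ gs i ⊆ gs j := fun h => hTa hi' hj' hneS (Finset.coe_subset.2 h)
  have h2 : ¬ gs j ⊆ gs i := fun h => hTa hj' hi' hneS.symm (Finset.coe_subset.2 h)
  have h3 := (ex_nested_pair' hcl i j hij).1 (hpair _ (hT hi') _ (hT hj'))
  rw [nonNested, decide_eq_false_iff_not] at h3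
  exact ⟨h1, fun k hk => h3 ⟨h1, h2, k, hk⟩⟩

end

end Pool.Agent.FlagChow
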