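import Pool.Agent.Lib_MP_d3eb25_co.Data

/-!
Numerology for MP_d3eb25_co: the gamma vector of the example is `(1, 5, 2, 1)`, and this is not the
face vector of a simplicial complex.
-/

namespace Pool.Agent.FlagChow
open MvPolynomial

/-- γ = (1,5,2,1). -/
def gam (i : ℕ) : ℤ := [1, 5, 2, 1].getD i 0

theorem gamma_expand (γ : ℕ → ℤ) :
    (∑ i ∈ Finset.range (6 / 2 + 1),
      Polynomial.C (γ i) * Polynomial.X ^ i * (1 + Polynomial.X) ^ (6 - 2 * i) : Polynomial ℤ) =
    Polynomial.C (γ 0) + Polynomial.C (6 * γ 0 + γ 1) * Polynomial.X ^ 1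
      + Polynomial.C (15 * γ 0 + 4 * γ 1 + γ 2) * Polynomial.X ^ 2
      + Polynomial.C (20 * γ 0 + 6 * γ 1 + 2 * γ 2 + γ 3) * Polynomial.X ^ 3
      + Polynomial.C (15 * γ 0 + 4 * γ 1 + γ 2) * Polynomial.X ^ 4
      + Polynomial.C (6 * γ 0 + γ 1) * Polynomial.X ^ 5
      + Polynomial.C (γ 0) * Polynomial.X ^ 6 := by
  simp only [Finset.sum_range_succ, Finset.sum_range_zero, Polynomial.C_add, Polynomial.C_mul,
    Nat.reduceDiv, Nat.reduceAdd, Nat.reduceMul, Nat.reduceSub]
  simp only [map_ofNat]
  ring

theorem hh_gamma : IsGammaVector (PowerSeries.mk fun k => (hh k : ℤ)) 6 gam := by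
  constructor
  · intro i hi
    have h4 : 4 ≤ i := by omega
    unfold gam
    rw [List.getD_eq_default]
    simpa using h4
  · rw [gamma_expand]
    ext k
    rw [PowerSeries.coeff_mk, Polynomial.coeff_coe]
    simp only [Polynomial.coeff_add, Polynomial.coeff_C_mul, Polynomial.coeff_X_pow,
      Polynomial.coeff_C]
    rcases Nat.lt_or_ge k 7 with hk | hk
    · interval_cases k <;> simp [hh, gam]
    · have h0 : hh k = 0 := by
        unfold hh
        rw [List.getD_eq_default]
        simpa using hk
      rw [h0]
      have e0 : k ≠ 0 := by omega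
      have e1 : k ≠ 1 := by omega
      have e2 : k ≠ 2 := by omega
      have e3 : k ≠ 3 := by omega
      have e4 : k ≠ 4 := by omega
      have e5 : k ≠ 5 := by omega
      have e6 : k ≠ 6 := by omega
      simp [e0, e1, e2, e3, e4, e5, e6]

theorem gamma_unique (γ : ℕ → ℤ) (h : IsGammaVector (PowerSeries.mk fun k => (hh k : ℤ)) 6 γ) :
    γ = gam := by
  obtain ⟨h1, h2⟩ := h
  rw [gamma_expand] at h2
  have hc := fun k => congrArg (PowerSeries.coeff k) h2
  simp only [PowerSeries.coeff_mk, Polynomial.coeff_coe, Polynomial.coeff_add,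
    Polynomial.coeff_C_mul, Polynomial.coeff_X_pow, Polynomial.coeff_C] at hc
  have c0 := hc 0
  have c1 := hc 1
  have c2 := hc 2
  have c3 := hc 3
  simp [hh] at c0 c1 c2 c3
  funext i
  rcases Nat.lt_or_ge i 4 with hi | hi
  · interval_cases i <;> simp [gam] <;> omega
  · rw [h1 i (by omega)]
    unfold gam
    rw [List.getD_eq_default]
    simpa using hi

/-- a complex with a face with three vertices has at least three faces with two vertices -/
theorem not_fvec {V : Type*} (Δ : Complex V) : (fun i => (Δ.fvec i : ℤ)) ≠ gam := by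
  classical
  intro h
  have h2 : Δ.fvec 2 = 2 := by
    have := congrFun h 2
    simp only [gam, List.getD_cons_succ, List.getD_cons_zero] at this
    exact_mod_cast this
  have h3 : Δ.fvec 3 = 1 := by
    have := congrFun h 3
    simp only [gam, List.getD_cons_succ, List.getD_cons_zero] at this
    exact_mod_cast this
  have hne : {s ∈ Δ.faces | s.card = 3}.Nonempty := by
    rw [Set.nonempty_iff_ne_empty]
    intro he
    unfold Complex.fvec at h3
    rw [he, Set.ncard_empty] at h3
    omega
  obtain ⟨s, hs, hs3⟩ := hne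
  obtain ⟨a, b, c, hab, hac, hbc, rfl⟩ := Finset.card_eq_three.1 hs3
  have hsub : (({({a, b} : Finset V), {a, c}, {b, c}} : Finset (Finset V)) : Set (Finset V)) ⊆
      {s ∈ Δ.faces | s.card = 2} := by
    intro t ht
    simp only [Finset.coe_insert, Finset.coe_singleton, Set.mem_insert_iff,
      Set.mem_singleton_iff] at ht
    rcases ht with rfl | rfl | rfl
    · exact ⟨Δ.down_closed _ hs _ (by intro x; simp; tauto), Finset.card_pair hab⟩
    · exact ⟨Δ.down_closed _ hs _ (by intro x; simp; tauto), Finset.card_pair hac⟩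
    · exact ⟨Δ.down_closed _ hs _ (by intro x; simp; tauto), Finset.card_pair hbc⟩
  have hfin : {s ∈ Δ.faces | s.card = 2}.Finite := by
    refine Set.finite_of_ncard_ne_zero ?_
    unfold Complex.fvec at h2
    omega
  have hcard := Set.ncard_le_ncard hsub hfin
  rw [Set.ncard_coe_finset] at hcard
  unfold Complex.fvec at h2
  rw [h2] at hcard
  have h3c : ({({a, b} : Finset V), {a, c}, {b, c}} : Finset (Finset V)).card = 3 := by
    apply Finset.card_eq_three.2
    refine ⟨_, _, _, ?_, ?_, ?_, rfl⟩
    · intro he
      have : b ∈ ({a, c} : Finset V) := he ▸ (by simp)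
      simp at this
      rcases this with h | h
      · exact hab h.symm
      · exact hbc h
    · intro he
      have : a ∈ ({b, c} : Finset V) := he ▸ (by simp)
      simp at this
      rcases this with h | h
      · exact hab h
      · exact hac h
    · intro he
      have : a ∈ ({b, c} : Finset V) := he ▸ (by simp)
      simp at this
      rcases this with h | h
      · exact hab h
      · exact hac h
  omega

end Pool.Agent.FlagChow
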