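import Pool.Agent.Lib_MP_d3eb25_co.Data

/-!
Piece I: transport of the Chow ring presentation from variables indexed by the building set to
variables indexed by `Fin 19`.
-/

namespace Pool.Agent.FlagChow

open MvPolynomial

theorem gs_injective : Function.Injective gs := by
  intro i j h
  revert i j
  decide

theorem gsS_injective :
    Function.Injective (fun i : Fin 19 => ((gs i : Finset (Fin 8)) : Set (Fin 8))) := by
  intro i j h
  exact gs_injective (Finset.coe_injective h)

/-- the numbering of the building set -/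
noncomputable def eG : Fin 19 ≃ exG :=
  Equiv.ofInjective (fun i : Fin 19 => ((gs i : Finset (Fin 8)) : Set (Fin 8))) gsS_injective

theorem eG_coe (i : Fin 19) : ((eG i : exG) : Set (Fin 8)) = ((gs i : Finset (Fin 8)) : Set (Fin 8)) :=
  rfl

theorem nested_single (A : Set (Fin 8)) (hA : A ∈ exG) : IsNested exM exG {A, A} := by
  refine ⟨by simpa using hA, ?_⟩
  intro T hT hnt _
  exfalso
  obtain ⟨x, hx, y, hy, hxy⟩ := hnt
  have h1 := hT hx
  have h2 := hT hy
  simp only [Set.pair_eq_singleton, Set.mem_singleton_iff] at h1 h2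
  exact hxy (h1.trans h2.symm)

theorem ne_of_nonNested {i j : Fin 19} (h : nonNested i j = true) : i ≠ j := by
  rintro rfl
  simp [nonNested] at h

section
variable
  (hE : exM.E = Set.univ)
  (hcl : ∀ X : Finset (Fin 8),
    exM.closure (X : Set (Fin 8)) = ((cl X : Finset (Fin 8)) : Set (Fin 8)))
  (hpair : ∀ (i j : Fin 19), i ≠ j →
    (IsNested exM exG {((gs i : Finset (Fin 8)) : Set (Fin 8)), ((gs j : Finset (Fin 8)) : Set (Fin 8))}
      ↔ nonNested i j = false))
  (hflag : ∀ S ⊆ exG, (∀ A ∈ S, ∀ B ∈ S, IsNested exM exG {A, B}) → IsNested exM exG S)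

include hcl in
theorem lin_rel (a : Fin 8) :
    (∑ᶠ (G : exG) (_ : exM.closure {a} ⊆ (G : Set (Fin 8))), (X G : MvPolynomial exG ℚ)) =
    rename eG (∑ i : Fin 19, if a ∈ gs i then (X i : MvPolynomial (Fin 19) ℚ) else 0) := by
  classical
  have h1 : exM.closure ({a} : Set (Fin 8)) = {a} := by
    have := hcl {a}
    rw [Finset.coe_singleton] at this
    rw [this]
    simp [cl]
  rw [← finsum_comp_equiv eG, finsum_eq_sum_of_fintype, map_sum]
  apply Finset.sum_congr rfl
  intro i _
  rw [finsum_eq_if, h1, eG_coe]
  simp only [Set.singleton_subset_iff, Finset.mem_coe]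
  split_ifs <;> simp

include hE hcl hpair hflag in
theorem chowIdeal_eq :
    chowIdeal exM exG = Ideal.map (renameEquiv ℚ eG : MvPolynomial (Fin 19) ℚ →+* MvPolynomial exG ℚ)
      (Ideal.span rel19) := by
  classical
  rw [Ideal.map_span]
  apply le_antisymm
  · unfold chowIdeal
    rw [Ideal.span_le]
    rintro p (⟨S, hS, rfl⟩ | ⟨a, _, rfl⟩)
    · have hsub : {G : Set (Fin 8) | ∃ g ∈ S, (g : Set (Fin 8)) = G} ⊆ exG := by
        rintro G ⟨g, _, rfl⟩
        exact g.2
      have : ∃ A ∈ {G : Set (Fin 8) | ∃ g ∈ S, (g : Set (Fin 8)) = G},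
          ∃ B ∈ {G : Set (Fin 8) | ∃ g ∈ S, (g : Set (Fin 8)) = G}, ¬ IsNested exM exG {A, B} := by
        by_contra hcon
        push Not at hcon
        exact hS (hflag _ hsub hcon)
      obtain ⟨A, ⟨gA, hgA, rfl⟩, B, ⟨gB, hgB, rfl⟩, hAB⟩ := this
      obtain ⟨i, rfl⟩ := eG.surjective gA
      obtain ⟨j, rfl⟩ := eG.surjective gB
      have hij : i ≠ j := by
        rintro rfl
        exact hAB (nested_single _ (eG i).2)
      have hnn : nonNested i j = true := by
        by_contra hn
        rw [Bool.not_eq_true] at hn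
        exact hAB ((hpair i j hij).2 hn)
      have hdvd : (X (eG i) * X (eG j) : MvPolynomial exG ℚ) ∣ ∏ G ∈ S, X G := by
        have h1 : (X (eG i) * X (eG j) : MvPolynomial exG ℚ) =
            ∏ G ∈ ({eG i, eG j} : Finset exG), X G := by
          rw [Finset.prod_pair (fun h => hij (eG.injective h))]
        rw [h1]
        apply Finset.prod_dvd_prod_of_subset
        intro x hx
        simp only [Finset.mem_insert, Finset.mem_singleton] at hx
        rcases hx with rfl | rfl
        · exact hgA
        · exact hgB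
      refine Ideal.mem_of_dvd _ hdvd ?_
      apply Ideal.subset_span
      refine ⟨X i * X j, Or.inl ⟨i, j, hnn, rfl⟩, ?_⟩
      simp
    · apply Ideal.subset_span
      refine ⟨_, Or.inr ⟨a, rfl⟩, ?_⟩
      rw [lin_rel hcl a]
      rfl
  · rw [Ideal.span_le]
    rintro _ ⟨p, (⟨i, j, hnn, rfl⟩ | ⟨a, rfl⟩), rfl⟩
    · apply Ideal.subset_span
      left
      have hij := ne_of_nonNested hnn
      refine ⟨{eG i, eG j}, ?_, ?_⟩
      · have : {G : Set (Fin 8) | ∃ g ∈ ({eG i, eG j} : Finset exG), (g : Set (Fin 8)) = G} =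
            {((gs i : Finset (Fin 8)) : Set (Fin 8)), ((gs j : Finset (Fin 8)) : Set (Fin 8))} := by
          ext G
          simp only [Finset.mem_insert, Finset.mem_singleton, exists_eq_or_imp, exists_eq_left,
            Set.mem_ofPred_eq, Set.mem_insert_iff, Set.mem_singleton_iff, eG_coe]
          constructor
          · rintro (h | h)
            · exact Or.inl h.symm
            · exact Or.inr h.symm
          · rintro (h | h)
            · exact Or.inl h.symm
            · exact Or.inr h.symm
        rw [this, hpair i j hij, hnn]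
        simp
      · rw [Finset.prod_pair (fun h => hij (eG.injective h))]
        simp
    · apply Ideal.subset_span
      right
      refine ⟨a, by rw [hE]; trivial, ?_⟩
      rw [lin_rel hcl a]
      rfl

theorem map_homog (k : ℕ) :
    Submodule.map (renameEquiv ℚ eG).toLinearMap (homogeneousSubmodule (Fin 19) ℚ k) =
      homogeneousSubmodule exG ℚ k := by
  ext p
  constructor
  · rintro ⟨p, hp, rfl⟩
    have hp' : p.IsHomogeneous k := hp
    exact hp'.rename_isHomogeneous
  · intro hp
    have hp' : p.IsHomogeneous k := hp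
    refine ⟨rename eG.symm p, ?_, ?_⟩
    · exact hp'.rename_isHomogeneous
    · change rename eG (rename eG.symm p) = p
      rw [rename_rename]
      simp

include hE hcl hpair hflag in
theorem hilbert_ex_of (k : ℕ) : hilbert exM exG k = Module.finrank ℚ (piece19 k) := by
  have hI := chowIdeal_eq hE hcl hpair hflag
  let Φ := Ideal.quotientEquivAlg (Ideal.span rel19) (chowIdeal exM exG) (renameEquiv ℚ eG) hI
  have : Submodule.map (Ideal.Quotient.mkₐ ℚ (chowIdeal exM exG)).toLinearMap
      (homogeneousSubmodule exG ℚ k) = Submodule.map (Φ.toLinearEquiv : _ →ₗ[ℚ] _) (piece19 k) := by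
    unfold piece19
    rw [← map_homog k, ← Submodule.map_comp, ← Submodule.map_comp]
    rfl
  unfold hilbert
  rw [this]
  exact LinearEquiv.finrank_map_eq _ _

end

end Pool.Agent.FlagChow
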