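import Pool.Agent.Lib_MP_d3eb25_co.Tab

/-!
Lower bounds for the dimensions of the graded pieces of the Chow ring of the example.
-/

namespace Pool.Agent.FlagChow

open MvPolynomial

/-- Powers of 8. -/
def pw : Fin 11 → ℕ := ![1, 8, 64, 512, 4096, 32768, 262144, 2097152, 16777216, 134217728,
  1073741824]

theorem pw_eq : ∀ a : Fin 11, pw a = 8 ^ (a : ℕ) := by decide

/-- The codes of all exponent vectors of length `n` and degree `r`. -/
def codes : ℕ → ℕ → List ℕ
  | 0, 0 => [0]
  | 0, _ + 1 => []
  | n + 1, r => (List.range (r + 1)).flatMap fun k => (codes n (r - k)).map fun c => 8 * c + k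

theorem mem_codes : ∀ (n r : ℕ) (d : Fin n → ℕ), ∑ i, d i = r →
    ∑ i, d i * 8 ^ (i : ℕ) ∈ codes n r := by
  intro n
  induction n with
  | zero =>
    intro r d h
    simp only [Finset.univ_eq_empty, Finset.sum_empty] at h
    subst h
    simp [codes]
  | succ n ih =>
    intro r d h
    rw [Fin.sum_univ_succ] at h
    rw [Fin.sum_univ_succ, codes, List.mem_flatMap]
    refine ⟨d 0, List.mem_range.2 (by omega), ?_⟩
    rw [List.mem_map]
    refine ⟨_, ih (r - d 0) (fun i => d i.succ) (by omega), ?_⟩
    rw [Finset.mul_sum]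
    simp only [Fin.val_zero, pow_zero, mul_one, Fin.val_succ, pow_succ]
    rw [add_comm]
    congr 1
    refine Finset.sum_congr rfl fun i _ => ?_
    ring

/-- The code of an exponent vector. -/
def code (d : Fin 11 →₀ ℕ) : ℕ := ∑ i, d i * 8 ^ (i : ℕ)

theorem code_add (d e : Fin 11 →₀ ℕ) : code (d + e) = code d + code e := by
  simp [code, add_mul, Finset.sum_add_distrib]

theorem code_single (a : Fin 11) : code (Finsupp.single a 1) = pw a := by
  rw [pw_eq, code, Finset.sum_eq_single a]
  · simp
  · intro b _ hb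
    simp [hb.symm]
  · simp

/-- The check for a product of two linear forms and one code. -/
noncomputable def chkD (S T : List ℕ) (c : ℕ) : Bool :=
  Nat.beq (S.map fun a => (T.map fun b => tab.get (c + a + b)).sum).sum (16 * (S.length * T.length))

/-- The degree map. -/
noncomputable def Dm : MvPolynomial (Fin 11) ℚ →ₗ[ℚ] ℚ :=
  (basisMonomials (Fin 11) ℚ).constr ℚ fun d =>
    if d.degree = 6 then (tab.get (code d) : ℚ) - 16 else 0

theorem Dm_monomial (d : Fin 11 →₀ ℕ) :
    Dm (monomial d 1) = if d.degree = 6 then (tab.get (code d) : ℚ) - 16 else 0 := by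
  have := (basisMonomials (Fin 11) ℚ).constr_basis ℚ (fun d =>
    if d.degree = 6 then (tab.get (code d) : ℚ) - 16 else 0) d
  rw [coe_basisMonomials] at this
  exact this

theorem Dm_XX (a b : Fin 11) (d : Fin 11 →₀ ℕ) :
    Dm (X a * (X b * monomial d 1)) =
      if d.degree = 4 then (tab.get (code d + pw a + pw b) : ℚ) - 16 else 0 := by
  have h : (X a * (X b * monomial d 1) : MvPolynomial (Fin 11) ℚ) =
      monomial (Finsupp.single a 1 + (Finsupp.single b 1 + d)) 1 := by
    rw [X, X, monomial_mul, monomial_mul, mul_one, mul_one]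
  rw [h, Dm_monomial, code_add, code_add, code_single, code_single]
  have h1 : (Finsupp.single a 1 + (Finsupp.single b 1 + d)).degree = 6 ↔ d.degree = 4 := by
    rw [map_add, map_add, Finsupp.degree_single, Finsupp.degree_single]; omega
  have h2 : pw a + (pw b + code d) = code d + pw a + pw b := by ring
  rw [h2]
  simp only [h1]

/-- A sum of variables. -/
noncomputable def lp (S : List (Fin 11)) : MvPolynomial (Fin 11) ℚ := (S.map X).sum

theorem Dm_lp (S : List (Fin 11)) (g : MvPolynomial (Fin 11) ℚ) :
    Dm (lp S * g) = (S.map fun a => Dm (X a * g)).sum := by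
  induction S with
  | nil => simp [lp]
  | cons a S ih =>
    simp only [lp, List.map_cons, List.sum_cons, add_mul, map_add]
    rw [← ih, lp]

theorem sum_shift (T : List ℕ) (g : ℕ → ℕ) :
    (T.map fun b => (g b : ℚ) - 16).sum = ((T.map g).sum : ℕ) - 16 * (T.length : ℚ) := by
  induction T with
  | nil => simp
  | cons a S ih =>
    simp only [List.map_cons, List.sum_cons, ih, List.length_cons]
    push_cast
    ring

theorem sum_shift2 (S T : List ℕ) (g : ℕ → ℕ → ℕ) :
    (S.map fun a => (T.map fun b => (g a b : ℚ) - 16).sum).sum =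
      ((S.map fun a => (T.map fun b => g a b).sum).sum : ℕ) -
        16 * ((S.length : ℚ) * (T.length : ℚ)) := by
  induction S with
  | nil => simp
  | cons a S ih =>
    simp only [List.map_cons, List.sum_cons, List.length_cons]
    rw [ih, sum_shift T (g a)]
    push_cast
    ring

theorem degree_eq (d : Fin 11 →₀ ℕ) : d.degree = ∑ i, d i := Finsupp.degree_eq_sum d

theorem Dm_lp_lp (S T : List (Fin 11))
    (h : (codes 11 4).all (chkD (S.map pw) (T.map pw)) = true) (f : MvPolynomial (Fin 11) ℚ) :
    Dm (lp S * (lp T * f)) = 0 := by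
  induction f using MvPolynomial.induction_on' with
  | monomial d r =>
    have hr : (monomial d r : MvPolynomial (Fin 11) ℚ) = r • monomial d 1 := by
      rw [smul_monomial, smul_eq_mul, mul_one]
    rw [hr, mul_smul_comm, mul_smul_comm, map_smul]
    suffices h0 : Dm (lp S * (lp T * monomial d 1)) = 0 by rw [h0, smul_zero]
    rw [Dm_lp]
    have h1 : ∀ a, Dm (X a * (lp T * monomial d 1)) =
        (T.map fun b => if d.degree = 4 then (tab.get (code d + pw a + pw b) : ℚ) - 16
          else 0).sum := by
      intro a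
      rw [mul_left_comm, Dm_lp]
      congr 1
      refine List.map_congr_left fun b _ => ?_
      rw [mul_left_comm, Dm_XX]
    simp only [h1]
    by_cases hd : d.degree = 4
    · simp only [hd, if_true]
      have h2 := List.all_eq_true.1 h (code d) (mem_codes 11 4 d (by rw [← degree_eq, hd]))
      have h3 := Nat.eq_of_beq_eq_true h2
      have h4 := sum_shift2 (S.map pw) (T.map pw) (fun a b => tab.get (code d + a + b))
      rw [h3] at h4
      simp only [List.map_map, List.length_map, Function.comp_def] at h4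
      rw [h4]
      push_cast
      ring
    · simp [hd]
  | add p q hp hq =>
    rw [mul_add, mul_add, map_add, hp, hq, add_zero]

/-- The linear forms of the nineteen variables (up to sign). -/
def SL : Fin 19 → List (Fin 11) :=
  ![[0, 4, 7, 8, 9, 10], [0, 4, 7, 8, 9, 10], [1, 4, 6, 8, 9, 10], [1, 4, 6, 8, 9, 10],
    [2, 5, 6, 7, 9, 10], [2, 5, 6, 7, 9, 10], [3, 5, 6, 7, 8, 10], [3, 5, 6, 7, 8, 10],
    [0], [1], [2], [3], [4], [5], [6], [7], [8], [9], [10]]

/-- The sign. -/
def sg (i : Fin 19) : ℚ := if (i : ℕ) < 8 then -1 else 1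

/-- Elimination of the atoms. -/
noncomputable def phi : MvPolynomial (Fin 19) ℚ →ₐ[ℚ] MvPolynomial (Fin 11) ℚ :=
  aeval fun i => sg i • lp (SL i)

/-- The quadratic relations up to symmetry. -/
def rels : List (List (Fin 11) × List (Fin 11)) :=
  [([0], [1]), ([2], [3]), ([2], [4]), ([3], [4]), ([0], [5]), ([1], [5]), ([0], [6]), ([1], [7]),
   ([2], [8]), ([3], [9]), ([4], [5]), ([4], [6]), ([4], [7]), ([5], [8]), ([5], [9]),
   ([6], [7]), ([6], [8]), ([6], [9]), ([7], [8]), ([7], [9]), ([8], [9]),
   ([0, 4, 7, 8, 9, 10], [0, 4, 7, 8, 9, 10]), ([1, 4, 6, 8, 9, 10], [1, 4, 6, 8, 9, 10]),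
   ([2, 5, 6, 7, 9, 10], [2, 5, 6, 7, 9, 10]), ([3, 5, 6, 7, 8, 10], [3, 5, 6, 7, 8, 10]),
   ([0, 4, 7, 8, 9, 10], [6]), ([1, 4, 6, 8, 9, 10], [7]),
   ([2, 5, 6, 7, 9, 10], [8]), ([3, 5, 6, 7, 8, 10], [9])]

theorem nonNested_rels' : ∀ i j : Fin 19,
    (!(nonNested i j) || rels.contains (SL i, SL j) || rels.contains (SL j, SL i)) = true := by
  decide +kernel

theorem nonNested_rels (i j : Fin 19) (h : nonNested i j = true) :
    (SL i, SL j) ∈ rels ∨ (SL j, SL i) ∈ rels := by
  have := nonNested_rels' i j
  rw [h] at this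
  simpa [List.contains_iff_mem] using this

theorem rels_chk : (rels.all fun x => (codes 11 4).all (chkD (x.1.map pw) (x.2.map pw))) = true := by
  decide +kernel

theorem phi_X (i : Fin 19) : phi (X i) = sg i • lp (SL i) := by
  simp [phi]

theorem Dm_phi_XX (i j : Fin 19) (h : nonNested i j = true) (f : MvPolynomial (Fin 11) ℚ) :
    Dm (phi (X i * X j) * f) = 0 := by
  have key : ∀ i j : Fin 19, (SL i, SL j) ∈ rels → Dm (phi (X i * X j) * f) = 0 := by
    intro i j hij
    have h1 := List.all_eq_true.1 rels_chk _ hij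
    have h2 := Dm_lp_lp (SL i) (SL j) h1 f
    have e1 : phi (X i * X j) = (sg i • lp (SL i)) * (sg j • lp (SL j)) := by
      rw [map_mul, phi_X, phi_X]
    have h3 : (sg i • lp (SL i)) * (sg j • lp (SL j)) * f =
        (sg i * sg j) • (lp (SL i) * (lp (SL j) * f)) := by
      rw [smul_mul_smul_comm, smul_mul_assoc, mul_assoc]
    rw [e1, h3, map_smul, h2, smul_zero]
  rcases nonNested_rels i j h with h1 | h1
  · exact key i j h1
  · rw [mul_comm (X i)]
    exact key j i h1

theorem phi_lin (a : Fin 8) :
    phi (∑ i : Fin 19, if a ∈ gs i then X i else 0) = 0 := by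
  rw [map_sum]
  have h1 : ∀ i : Fin 19, phi (if a ∈ gs i then X i else 0) =
      if a ∈ gs i then sg i • lp (SL i) else 0 := by
    intro i
    split_ifs
    · exact phi_X i
    · exact map_zero _
  simp only [h1]
  rw [← Finset.sum_filter]
  have key : ∀ (s : Finset (Fin 19)), (Finset.univ.filter fun i => a ∈ gs i) = s →
      ∑ i ∈ s, sg i • lp (SL i) = 0 → ∑ i ∈ Finset.univ.filter (fun i => a ∈ gs i),
        sg i • lp (SL i) = 0 := by
    intro s hs h; rw [hs]; exact h
  fin_cases a
  · refine key {0, 8, 12, 15, 16, 17, 18} (by decide) ?_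
    repeat rw [Finset.sum_insert (by decide)]
    rw [Finset.sum_singleton]
    simp [sg, lp, SL]
    ring
  · refine key {1, 8, 12, 15, 16, 17, 18} (by decide) ?_
    repeat rw [Finset.sum_insert (by decide)]
    rw [Finset.sum_singleton]
    simp [sg, lp, SL]
    ring
  · refine key {2, 9, 12, 14, 16, 17, 18} (by decide) ?_
    repeat rw [Finset.sum_insert (by decide)]
    rw [Finset.sum_singleton]
    simp [sg, lp, SL]
    ring
  · refine key {3, 9, 12, 14, 16, 17, 18} (by decide) ?_
    repeat rw [Finset.sum_insert (by decide)]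
    rw [Finset.sum_singleton]
    simp [sg, lp, SL]
    ring
  · refine key {4, 10, 13, 14, 15, 17, 18} (by decide) ?_
    repeat rw [Finset.sum_insert (by decide)]
    rw [Finset.sum_singleton]
    simp [sg, lp, SL]
    ring
  · refine key {5, 10, 13, 14, 15, 17, 18} (by decide) ?_
    repeat rw [Finset.sum_insert (by decide)]
    rw [Finset.sum_singleton]
    simp [sg, lp, SL]
    ring
  · refine key {6, 11, 13, 14, 15, 16, 18} (by decide) ?_
    repeat rw [Finset.sum_insert (by decide)]
    rw [Finset.sum_singleton]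
    simp [sg, lp, SL]
    ring
  · refine key {7, 11, 13, 14, 15, 16, 18} (by decide) ?_
    repeat rw [Finset.sum_insert (by decide)]
    rw [Finset.sum_singleton]
    simp [sg, lp, SL]
    ring

theorem Dm_ideal (x : MvPolynomial (Fin 19) ℚ) (hx : x ∈ Ideal.span rel19) :
    ∀ a : MvPolynomial (Fin 19) ℚ, Dm (phi (a * x)) = 0 := by
  refine Submodule.span_induction (p := fun x _ => ∀ a : MvPolynomial (Fin 19) ℚ,
    Dm (phi (a * x)) = 0) ?_ ?_ ?_ ?_ hx
  · rintro x (⟨i, j, hij, rfl⟩ | ⟨a, rfl⟩) b
    · rw [mul_comm, map_mul]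
      exact Dm_phi_XX i j hij _
    · rw [map_mul, phi_lin, mul_zero, map_zero]
  · intro a; simp
  · intro x y _ _ hx hy a
    rw [mul_add, map_add, map_add, hx, hy, add_zero]
  · intro b x _ hx a
    rw [smul_eq_mul, ← mul_assoc]
    exact hx _

/-- Decoding. -/
noncomputable def dec (c : ℕ) : Fin 11 →₀ ℕ :=
  Finsupp.equivFunOnFinite.symm fun i => c / pw i % 8

theorem dec_apply (c : ℕ) (i : Fin 11) : dec c i = c / pw i % 8 := rfl

/-- Sum of the digits -/
def dsum (c : ℕ) : ℕ := (List.finRange 11).foldr (fun i s => c / pw i % 8 + s) 0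
/-- Recoding -/
def rcode (c : ℕ) : ℕ := (List.finRange 11).foldr (fun i s => c / pw i % 8 * pw i + s) 0

theorem sum_eq_foldr (g : Fin 11 → ℕ) : ∑ i, g i = (List.finRange 11).foldr (fun i s => g i + s) 0 := by
  rw [← List.sum_ofFn]
  rfl

theorem dual_chk : ∀ k, k ≤ 6 → ((dual k).all fun x => Nat.beq (dsum x.1) k &&
    Nat.beq (dsum x.2) (6 - k) && Nat.beq (rcode x.1) x.1 && Nat.beq (rcode x.2) x.2 &&
    !(Nat.beq (tab.get (x.1 + x.2)) 16)) = true := by
  decide +kernel

theorem dual_len : ∀ k, k ≤ 6 → (dual k).length = hh k := by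
  decide

/-- Upper triangularity check. -/
noncomputable def tri : List (ℕ × ℕ) → Bool
  | [] => true
  | x :: l => (l.all fun y => Nat.beq (tab.get (x.1 + y.2)) 16) && tri l

theorem tri_get : ∀ (L : List (ℕ × ℕ)), tri L = true → ∀ (i j : ℕ) (hi : i < L.length)
    (hj : j < L.length), i < j → tab.get ((L[i]).1 + (L[j]).2) = 16 := by
  intro L
  induction L with
  | nil => intro _ i j hi; simp at hi
  | cons x l ih =>
    intro h i j hi hj hij
    rw [tri, Bool.and_eq_true, List.all_eq_true] at h
    obtain ⟨j, rfl⟩ : ∃ j', j = j' + 1 := ⟨j - 1, by omega⟩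
    cases i with
    | zero =>
      have := h.1 (l[j]'(by simpa using hj)) (List.getElem_mem _)
      exact Nat.eq_of_beq_eq_true this
    | succ i =>
      have := ih h.2 i j (by simpa using hi) (by simpa using hj) (by omega)
      simpa using this

theorem dual_tri : ∀ k, k ≤ 6 → tri (dual k) = true := by
  decide +kernel

/-- The monomial of a code in nineteen variables. -/
noncomputable def mo (c : ℕ) : MvPolynomial (Fin 19) ℚ :=
  rename (fun i : Fin 11 => (⟨i + 8, by omega⟩ : Fin 19)) (monomial (dec c) 1)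

theorem phi_mo (c : ℕ) : phi (mo c) = monomial (dec c) 1 := by
  rw [mo, phi, aeval_rename]
  have : (fun i : Fin 19 => sg i • lp (SL i)) ∘ (fun i : Fin 11 => (⟨i + 8, by omega⟩ : Fin 19)) =
      X := by
    funext i
    fin_cases i <;> simp [sg, SL, lp]
  rw [this]
  exact aeval_X_left_apply _

theorem Dm_mo (r c : ℕ) (h1 : dsum r + dsum c = 6) (hr : rcode r = r) (hc : rcode c = c) :
    Dm (phi (mo r * mo c)) = (tab.get (r + c) : ℚ) - 16 := by
  have hdeg : ∀ x, (dec x).degree = dsum x := by
    intro x
    rw [degree_eq, sum_eq_foldr]; rfl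
  have hcode : ∀ x, code (dec x) = rcode x := by
    intro x
    rw [code, sum_eq_foldr]
    simp only [rcode, dec_apply, pw_eq]
  rw [map_mul, phi_mo, phi_mo, monomial_mul, mul_one, Dm_monomial, if_pos, code_add, hcode, hcode,
    hr, hc]
  rw [map_add, hdeg, hdeg, h1]

theorem mo_homog (c k : ℕ) (h : dsum c = k) : (mo c).IsHomogeneous k := by
  refine IsHomogeneous.rename_isHomogeneous ?_
  refine isHomogeneous_monomial 1 ?_
  rw [degree_eq, sum_eq_foldr, ← h]; rfl

instance piece19_finite (k : ℕ) : FiniteDimensional ℚ (piece19 k) :=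
  Submodule.finiteDimensional_of_le (piece19_le k)

theorem lower (k : ℕ) : hh k ≤ Module.finrank ℚ (piece19 k) := by
  by_cases hk : k ≤ 6
  · have hlen := dual_len k hk
    have hchk := dual_chk k hk
    rw [List.all_eq_true] at hchk
    have hch : ∀ (i : ℕ) (hi : i < (dual k).length), dsum (dual k)[i].1 = k ∧
        dsum (dual k)[i].2 = 6 - k ∧ rcode (dual k)[i].1 = (dual k)[i].1 ∧
        rcode (dual k)[i].2 = (dual k)[i].2 ∧ tab.get ((dual k)[i].1 + (dual k)[i].2) ≠ 16 := by
      intro i hi
      have := hchk (dual k)[i] (List.getElem_mem _)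
      simp only [Bool.and_eq_true, Bool.not_eq_true', Nat.beq_eq] at this
      obtain ⟨⟨⟨⟨h1, h2⟩, h3⟩, h4⟩, h5⟩ := this
      refine ⟨h1, h2, h3, h4, fun h => ?_⟩
      rw [h] at h5
      exact absurd h5 (by decide)
    let n := (dual k).length
    let v : Fin n → piece19 k := fun i => ⟨Ideal.Quotient.mkₐ ℚ (Ideal.span rel19) (mo (dual k)[i].1),
      Submodule.mem_map.2 ⟨mo (dual k)[i].1, mo_homog _ _ (hch i i.2).1, rfl⟩⟩
    have hv : LinearIndependent ℚ v := by
      rw [Fintype.linearIndependent_iff]
      intro g hg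
      have h0 : (∑ i, g i • mo (dual k)[i].1) ∈ Ideal.span rel19 := by
        have h1 := congrArg (fun x : piece19 k => (x : QQ)) hg
        simp only [Submodule.coe_sum, Submodule.coe_smul, v, ZeroMemClass.coe_zero] at h1
        simp only [← map_smul, ← map_sum] at h1
        exact Ideal.Quotient.eq_zero_iff_mem.1 h1
      let M : Matrix (Fin n) (Fin n) ℚ := fun i j =>
        (tab.get ((dual k)[i].1 + (dual k)[j].2) : ℚ) - 16
      have hM : M.det ≠ 0 := by
        have htri : M.BlockTriangular OrderDual.toDual := by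
          intro i j hij
          have hij' : i < j := hij
          have := tri_get _ (dual_tri k hk) i j i.2 j.2 hij'
          simp only [M]
          rw [show tab.get ((dual k)[i].1 + (dual k)[j].2) = 16 from this]
          norm_num
        rw [Matrix.det_of_isLowerTriangular M htri, Finset.prod_ne_zero_iff]
        intro i _ h
        have h5 := (hch i i.2).2.2.2.2
        apply h5
        have : (tab.get ((dual k)[i].1 + (dual k)[i].2) : ℚ) = 16 := by
          simp only [M] at h
          linarith
        exact_mod_cast this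
      have hgM : Matrix.vecMul g M = 0 := by
        funext j
        have h2 := Dm_ideal _ h0 (mo (dual k)[j].2)
        rw [Finset.mul_sum, map_sum, map_sum] at h2
        change (∑ i, g i * M i j) = 0
        rw [← h2]
        refine Finset.sum_congr rfl fun i _ => ?_
        rw [mul_smul_comm, map_smul, map_smul, smul_eq_mul, mul_comm (mo _)]
        have hs : dsum (dual k)[(i : ℕ)].1 + dsum (dual k)[(j : ℕ)].2 = 6 := by
          rw [(hch i i.2).1, (hch j j.2).2.1]
          omega
        have e := Dm_mo (dual k)[(i : ℕ)].1 (dual k)[(j : ℕ)].2 hs (hch i i.2).2.2.1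
          (hch j j.2).2.2.2.1
        exact congrArg (g i * ·) e.symm
      have := Matrix.eq_zero_of_vecMul_eq_zero hM hgM
      intro i
      exact congrFun this i
    have := hv.fintype_card_le_finrank
    rw [Fintype.card_fin] at this
    rw [← hlen]
    exact this
  · have : hh k = 0 := by
      unfold hh
      rw [List.getD_eq_default]
      simp
      omega
    rw [this]
    exact Nat.zero_le _

end Pool.Agent.FlagChow
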