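import Mathlib

/-!
Algebraic consequences of the relations of the Chow ring of the example (upper bound part).
-/

namespace Pool.Agent.FlagChow

variable {Q : Type*} [CommRing Q]

/-- Key step: a nilpotency transfer. -/
theorem key_step (c X Y a : Q) (m : ℕ) (h : c * ((X - a) * (Y - a)) = 0) (hY : c * Y ^ 2 = 0)
    (hX : c * X ^ m = 0) : c * a ^ (m + 2) = 0 := by
  have hE : c * a ^ 2 * X = c * a ^ 3 := by
    linear_combination (X - a) * hY - (Y + a) * h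
  have : ∀ k, c * a ^ 2 * X ^ k = c * a ^ (k + 2) := by
    intro k
    induction k with
    | zero => simp
    | succ k ih =>
      calc c * a ^ 2 * X ^ (k + 1) = (c * a ^ 2 * X ^ k) * X := by ring
        _ = a ^ k * (c * a ^ 2 * X) := by rw [ih]; ring
        _ = c * a ^ (k + 1 + 2) := by rw [hE]; ring
  rw [← this m]
  calc c * a ^ 2 * X ^ m = a ^ 2 * (c * X ^ m) := by ring
    _ = 0 := by rw [hX, mul_zero]

theorem sq_transfer (c S T : Q) (h : c * S = c * T) (hS : S ^ 2 = 0) : c * T ^ 2 = 0 := by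
  linear_combination c * hS - (S + T) * h

/-- The relations among the eleven variables of rank at least two. -/
structure R (p1 p2 p3 p4 q r t1 t2 t3 t4 z : Q) : Prop where
  p12 : p1 * p2 = 0
  p34 : p3 * p4 = 0
  p3q : p3 * q = 0
  p4q : p4 * q = 0
  p1r : p1 * r = 0
  p2r : p2 * r = 0
  pt1 : p1 * t1 = 0
  pt2 : p2 * t2 = 0
  pt3 : p3 * t3 = 0
  pt4 : p4 * t4 = 0
  qr : q * r = 0
  qt1 : q * t1 = 0
  qt2 : q * t2 = 0
  rt3 : r * t3 = 0
  rt4 : r * t4 = 0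
  t12 : t1 * t2 = 0
  t13 : t1 * t3 = 0
  t14 : t1 * t4 = 0
  t23 : t2 * t3 = 0
  t24 : t2 * t4 = 0
  t34 : t3 * t4 = 0
  s1 : (p1 + q + t2 + t3 + t4 + z) ^ 2 = 0
  s2 : (p2 + q + t1 + t3 + t4 + z) ^ 2 = 0
  s3 : (p3 + r + t1 + t2 + t4 + z) ^ 2 = 0
  s4 : (p4 + r + t1 + t2 + t3 + z) ^ 2 = 0
  u1 : (p1 + q + t2 + t3 + t4 + z) * t1 = 0
  u2 : (p2 + q + t1 + t3 + t4 + z) * t2 = 0
  u3 : (p3 + r + t1 + t2 + t4 + z) * t3 = 0
  u4 : (p4 + r + t1 + t2 + t3 + z) * t4 = 0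

namespace R

variable {p1 p2 p3 p4 q r t1 t2 t3 t4 z : Q}

theorem swap12 (h : R p1 p2 p3 p4 q r t1 t2 t3 t4 z) : R p2 p1 p3 p4 q r t2 t1 t3 t4 z where
  p12 := by linear_combination h.p12
  p34 := h.p34
  p3q := h.p3q
  p4q := h.p4q
  p1r := h.p2r
  p2r := h.p1r
  pt1 := h.pt2
  pt2 := h.pt1
  pt3 := h.pt3
  pt4 := h.pt4
  qr := h.qr
  qt1 := h.qt2
  qt2 := h.qt1
  rt3 := h.rt3
  rt4 := h.rt4
  t12 := by linear_combination h.t12
  t13 := h.t23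
  t14 := h.t24
  t23 := h.t13
  t24 := h.t14
  t34 := h.t34
  s1 := h.s2
  s2 := h.s1
  s3 := by linear_combination h.s3
  s4 := by linear_combination h.s4
  u1 := h.u2
  u2 := h.u1
  u3 := by linear_combination h.u3
  u4 := by linear_combination h.u4

theorem swap34 (h : R p1 p2 p3 p4 q r t1 t2 t3 t4 z) : R p1 p2 p4 p3 q r t1 t2 t4 t3 z where
  p12 := h.p12
  p34 := by linear_combination h.p34
  p3q := h.p4q
  p4q := h.p3q
  p1r := h.p1r
  p2r := h.p2r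
  pt1 := h.pt1
  pt2 := h.pt2
  pt3 := h.pt4
  pt4 := h.pt3
  qr := h.qr
  qt1 := h.qt1
  qt2 := h.qt2
  rt3 := h.rt4
  rt4 := h.rt3
  t12 := h.t12
  t13 := h.t14
  t14 := h.t13
  t23 := h.t24
  t24 := h.t23
  t34 := by linear_combination h.t34
  s1 := by linear_combination h.s1
  s2 := by linear_combination h.s2
  s3 := h.s4
  s4 := h.s3
  u1 := by linear_combination h.u1
  u2 := by linear_combination h.u2
  u3 := h.u4
  u4 := h.u3

theorem swapH (h : R p1 p2 p3 p4 q r t1 t2 t3 t4 z) : R p3 p4 p1 p2 r q t3 t4 t1 t2 z where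
  p12 := h.p34
  p34 := h.p12
  p3q := h.p1r
  p4q := h.p2r
  p1r := h.p3q
  p2r := h.p4q
  pt1 := h.pt3
  pt2 := h.pt4
  pt3 := h.pt1
  pt4 := h.pt2
  qr := by linear_combination h.qr
  qt1 := h.rt3
  qt2 := h.rt4
  rt3 := h.qt1
  rt4 := h.qt2
  t12 := h.t34
  t13 := by linear_combination h.t13
  t14 := by linear_combination h.t23
  t23 := by linear_combination h.t14
  t24 := by linear_combination h.t24
  t34 := h.t12
  s1 := by linear_combination h.s3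
  s2 := by linear_combination h.s4
  s3 := by linear_combination h.s1
  s4 := by linear_combination h.s2
  u1 := by linear_combination h.u3
  u2 := by linear_combination h.u4
  u3 := by linear_combination h.u1
  u4 := by linear_combination h.u2

theorem zt1 (h : R p1 p2 p3 p4 q r t1 t2 t3 t4 z) : z * t1 = 0 := by
  linear_combination h.u1 - h.pt1 - h.qt1 - h.t12 - h.t13 - h.t14

theorem zt2 (h : R p1 p2 p3 p4 q r t1 t2 t3 t4 z) : z * t2 = 0 := h.swap12.zt1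
theorem zt3 (h : R p1 p2 p3 p4 q r t1 t2 t3 t4 z) : z * t3 = 0 := h.swapH.zt1
theorem zt4 (h : R p1 p2 p3 p4 q r t1 t2 t3 t4 z) : z * t4 = 0 := h.swap34.zt3

/-- `q t₃² = - q z²`. -/
theorem qt3 (h : R p1 p2 p3 p4 q r t1 t2 t3 t4 z) : q * t3 ^ 2 = - (q * z ^ 2) := by
  have h1 : q * (p4 + r + t1 + t2 + t3 + z) = q * (t3 + z) := by
    linear_combination h.p4q + h.qr + h.qt1 + h.qt2
  have h2 := sq_transfer q _ _ h1 h.s4
  linear_combination h2 - 2 * q * h.zt3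

theorem qt4 (h : R p1 p2 p3 p4 q r t1 t2 t3 t4 z) : q * t4 ^ 2 = - (q * z ^ 2) := h.swap34.qt3

theorem qz3 (h : R p1 p2 p3 p4 q r t1 t2 t3 t4 z) : q * z ^ 3 = 0 := by
  linear_combination z * h.qt3 - q * t3 * h.zt3

/-- `U = q + t₃ + t₄ + z` satisfies `U⁴ = 0`. -/
theorem U4 (h : R p1 p2 p3 p4 q r t1 t2 t3 t4 z) : (q + t3 + t4 + z) ^ 4 = 0 := by
  have := key_step (1 : Q) (p1 + q + t2 + t3 + t4 + z) (p2 + q + t1 + t3 + t4 + z)
    (q + t3 + t4 + z) 2 (by linear_combination h.p12 + h.pt1 + h.pt2 + h.t12)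
    (by linear_combination h.s2) (by linear_combination h.s1)
  linear_combination this

theorem pU2 (h : R p1 p2 p3 p4 q r t1 t2 t3 t4 z) : p1 * (q + t3 + t4 + z) ^ 2 = 0 := by
  -- (p1 + t2) U^2 = 0 and t2 U = 0
  have h1 : (p1 + t2) * (q + t3 + t4 + z) ^ 2 = 0 := by
    have hxy : (p1 + t2) * (p2 + t1) = 0 := by
      linear_combination h.p12 + h.pt1 + h.pt2 + h.t12
    linear_combination (p1 + t2) * h.s2 - (p2 + t1 + 2 * (q + t3 + t4 + z)) * hxy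
  have h2 : t2 * (q + t3 + t4 + z) = 0 := by
    linear_combination h.qt2 + h.t23 + h.t24 + h.zt2
  linear_combination h1 - (q + t3 + t4 + z) * h2

/-- `q⁴` in terms of standard monomials. -/
theorem q4 (h : R p1 p2 p3 p4 q r t1 t2 t3 t4 z) :
    q ^ 4 = - 4 * q ^ 3 * (t3 + t4 + z) + 6 * q ^ 2 * z ^ 2 - (t3 ^ 4 + t4 ^ 4 + z ^ 4) := by
  have e2 : (t3 + t4 + z) ^ 2 = t3 ^ 2 + t4 ^ 2 + z ^ 2 := by
    linear_combination 2 * h.t34 + 2 * h.zt3 + 2 * h.zt4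
  have e3 : (t3 + t4 + z) ^ 3 = t3 ^ 3 + t4 ^ 3 + z ^ 3 := by
    linear_combination (t3 + t4 + z) * e2 + (t3 + t4) * h.t34 + (t3 + z) * h.zt3
      + (t4 + z) * h.zt4
  have e4 : (t3 + t4 + z) ^ 4 = t3 ^ 4 + t4 ^ 4 + z ^ 4 := by
    linear_combination (t3 + t4 + z) * e3 + (t3 ^ 2 + t4 ^ 2) * h.t34 + (t3 ^ 2 + z ^ 2) * h.zt3
      + (t4 ^ 2 + z ^ 2) * h.zt4
  have hU := h.U4
  have f2 : q * (t3 + t4 + z) ^ 2 = - (q * z ^ 2) := by
    rw [e2]; linear_combination h.qt3 + h.qt4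
  have f3 : q * (t3 + t4 + z) ^ 3 = 0 := by
    rw [e3]; linear_combination t3 * h.qt3 + t4 * h.qt4 + h.qz3 - q * z * h.zt3 - q * z * h.zt4
  linear_combination hU - 6 * q * f2 - 4 * f3 - e4

/-- `p₁ q²` in terms of standard monomials. -/
theorem pq2 (h : R p1 p2 p3 p4 q r t1 t2 t3 t4 z) :
    p1 * q ^ 2 = - 2 * (p1 * q * (t3 + t4 + z)) - p1 * (t3 ^ 2 + t4 ^ 2 + z ^ 2) := by
  have e2 : (t3 + t4 + z) ^ 2 = t3 ^ 2 + t4 ^ 2 + z ^ 2 := by
    linear_combination 2 * h.t34 + 2 * h.zt3 + 2 * h.zt4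
  linear_combination h.pU2 - p1 * e2

theorem a4aux (h : R p1 p2 p3 p4 q r t1 t2 t3 t4 z) : z * t4 = 0 := h.zt4

theorem expand4 (a b : Q) (h : b * a = 0) : (a + b) ^ 4 = a ^ 4 + b ^ 4 := by
  linear_combination (4 * a ^ 2 + 6 * a * b + 4 * b ^ 2) * h

theorem expand6 (a b : Q) (h : b * a = 0) : (a + b) ^ 6 = a ^ 6 + b ^ 6 := by
  linear_combination (6 * a ^ 4 + 15 * a ^ 3 * b + 20 * a ^ 2 * b ^ 2 + 15 * a * b ^ 3
    + 6 * b ^ 4) * h

theorem expand2 (a b : Q) (h : b * a = 0) : (a + b) ^ 2 = a ^ 2 + b ^ 2 := by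
  linear_combination 2 * h

theorem pt4_4 (h : R p1 p2 p3 p4 q r t1 t2 t3 t4 z) : p1 * t4 ^ 4 = - (p1 * z ^ 4) := by
  have := key_step p1 (q + t3 + t4 + z) (p3 + r + t1 + t2 + t4 + z) (t4 + z) 2
    (by linear_combination p1 * (h.p3q + h.qr + h.qt1 + h.qt2 + h.pt3 + h.rt3 + h.t13 + h.t23))
    (by linear_combination p1 * h.s3) h.pU2
  rw [expand4 _ _ h.zt4] at this
  linear_combination this

theorem pt3_4 (h : R p1 p2 p3 p4 q r t1 t2 t3 t4 z) : p1 * t3 ^ 4 = - (p1 * z ^ 4) :=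
  h.swap34.pt4_4

theorem pt2_4 (h : R p1 p2 p3 p4 q r t1 t2 t3 t4 z) : p1 * t2 ^ 4 = - (p1 * z ^ 4) := by
  have := key_step p1 (p3 + r + t1 + t2 + t4 + z) (p4 + r + t1 + t2 + t3 + z) (t2 + z) 2
    (by
      linear_combination p1 * (h.p34 + h.pt3 + h.pt4 + h.t34) +
        (r + t1 + t4 + p3 + t1 + p4 + t3) * h.p1r + (p3 + t4 + p4 + t3 + t1) * h.pt1)
    (by linear_combination p1 * h.s4) (by linear_combination p1 * h.s3)
  rw [expand4 _ _ h.zt2] at this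
  linear_combination this

theorem pz5 (h : R p1 p2 p3 p4 q r t1 t2 t3 t4 z) : p1 * z ^ 5 = 0 := by
  linear_combination z * h.pt4_4 - p1 * t4 ^ 3 * h.zt4

theorem ppt2 (h : R p1 p2 p3 p4 q r t1 t2 t3 t4 z) :
    p1 * p3 * t2 ^ 2 = - (p1 * p3 * z ^ 2) := by
  have h1 : p1 * p3 * (p4 + r + t1 + t2 + t3 + z) = p1 * p3 * (t2 + z) := by
    linear_combination p1 * h.p34 + p3 * h.p1r + p3 * h.pt1 + p1 * h.pt3
  have h2 := sq_transfer _ _ _ h1 h.s4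
  rw [expand2 _ _ h.zt2] at h2
  linear_combination h2

theorem ppt4 (h : R p1 p2 p3 p4 q r t1 t2 t3 t4 z) :
    p1 * p3 * t4 ^ 2 = - (p1 * p3 * z ^ 2) := by
  have h1 : p1 * p3 * (p2 + q + t1 + t3 + t4 + z) = p1 * p3 * (t4 + z) := by
    linear_combination p3 * h.p12 + p1 * h.p3q + p3 * h.pt1 + p1 * h.pt3
  have h2 := sq_transfer _ _ _ h1 h.s2
  rw [expand2 _ _ h.zt4] at h2
  linear_combination h2

theorem ppz3 (h : R p1 p2 p3 p4 q r t1 t2 t3 t4 z) : p1 * p3 * z ^ 3 = 0 := by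
  linear_combination z * h.ppt4 - p1 * p3 * t4 * h.zt4

theorem t4_6 (h : R p1 p2 p3 p4 q r t1 t2 t3 t4 z) : t4 ^ 6 = - z ^ 6 := by
  have := key_step (1 : Q) (q + t3 + t4 + z) (p3 + r + t1 + t2 + t4 + z) (t4 + z) 4
    (by linear_combination h.p3q + h.qr + h.qt1 + h.qt2 + h.pt3 + h.rt3 + h.t13 + h.t23)
    (by linear_combination h.s3) (by linear_combination h.U4)
  rw [expand6 _ _ h.zt4] at this
  linear_combination this

theorem z7 (h : R p1 p2 p3 p4 q r t1 t2 t3 t4 z) : z ^ 7 = 0 := by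
  linear_combination z * h.t4_6 - t4 ^ 5 * h.zt4

/-- `p₁²` -/
theorem psq (h : R p1 p2 p3 p4 q r t1 t2 t3 t4 z) :
    p1 ^ 2 = - 2 * ((q + t2 + t3 + t4 + z) * p1) - (q ^ 2 + 2 * (q * (t3 + t4 + z)) +
      t2 ^ 2 + t3 ^ 2 + t4 ^ 2 + z ^ 2) := by
  linear_combination h.s1 - 2 * h.qt2 - 2 * h.t23 - 2 * h.t24 - 2 * h.zt2 - 2 * h.t34
    - 2 * h.zt3 - 2 * h.zt4

end R

end Pool.Agent.FlagChow
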