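import Pool.Agent.Lib_MP_d3eb25_co.Rules

/-!
The standard monomials span: closure of their span under multiplication by the generators.
-/

namespace Pool.Agent.FlagChow

/-- The half of the index of a pair. -/
def hf : Fin 4 → Fin 2 := ![0, 0, 1, 1]

variable {Q : Type*} [CommRing Q]

theorem comm0 {a b : Q} (h : a * b = 0) : b * a = 0 := by rw [mul_comm]; exact h

theorem comm1 {a b c d : Q} (h : a * b * c = - (a * b * d)) : b * a * c = - (b * a * d) := by
  linear_combination h

theorem comm2 {a b c : Q} (h : a * b * c = 0) : b * a * c = 0 := by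
  linear_combination h

/-- The derived rules, in indexed form. -/
structure RF (p t : Fin 4 → Q) (q : Fin 2 → Q) (z : Q) : Prop where
  zt : ∀ j, z * t j = 0
  tt : ∀ i j, i ≠ j → t i * t j = 0
  pt : ∀ i, p i * t i = 0
  qt0 : ∀ j, q (hf j) * t j = 0
  pp : ∀ i j, i ≠ j → hf i = hf j → p i * p j = 0
  pq0 : ∀ i h, h ≠ hf i → p i * q h = 0
  qq : ∀ g h, g ≠ h → q g * q h = 0
  qt2 : ∀ h j, hf j ≠ h → q h * t j ^ 2 = - (q h * z ^ 2)
  qz3 : ∀ h, q h * z ^ 3 = 0
  q4 : ∀ h, ∃ j l, q h ^ 4 = - 4 * q h ^ 3 * (t j + t l + z) + 6 * q h ^ 2 * z ^ 2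
      - (t j ^ 4 + t l ^ 4 + z ^ 4)
  pq2 : ∀ i, ∃ j l, p i * q (hf i) ^ 2 = - 2 * (p i * q (hf i) * (t j + t l + z))
      - p i * (t j ^ 2 + t l ^ 2 + z ^ 2)
  pt4 : ∀ i j, i ≠ j → p i * t j ^ 4 = - (p i * z ^ 4)
  pz5 : ∀ i, p i * z ^ 5 = 0
  ppt2 : ∀ i l j, hf i ≠ hf l → j ≠ i → j ≠ l → p i * p l * t j ^ 2 = - (p i * p l * z ^ 2)
  ppz3 : ∀ i l, hf i ≠ hf l → p i * p l * z ^ 3 = 0
  t6 : ∀ j, t j ^ 6 = - z ^ 6
  z7 : z ^ 7 = 0
  psq : ∀ i, ∃ j l m, p i ^ 2 = - 2 * ((q (hf i) + t j + t l + t m + z) * p i)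
      - (q (hf i) ^ 2 + 2 * (q (hf i) * (t l + t m + z)) + t j ^ 2 + t l ^ 2 + t m ^ 2 + z ^ 2)

theorem RF.of_R {p t : Fin 4 → Q} {q : Fin 2 → Q} {z : Q}
    (h : R (p 0) (p 1) (p 2) (p 3) (q 0) (q 1) (t 0) (t 1) (t 2) (t 3) z) : RF p t q z where
  zt := by
    intro j; fin_cases j
    exacts [h.zt1, h.zt2, h.zt3, h.zt4]
  tt := by
    intro i j hij
    fin_cases i <;> fin_cases j <;> first | exact absurd rfl hij | skip
    exacts [h.t12, h.t13, h.t14, comm0 h.t12, h.t23, h.t24,
      comm0 h.t13, comm0 h.t23, h.t34, comm0 h.t14, comm0 h.t24, comm0 h.t34]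
  pt := by
    intro i; fin_cases i
    exacts [h.pt1, h.pt2, h.pt3, h.pt4]
  qt0 := by
    intro i; fin_cases i
    exacts [h.qt1, h.qt2, h.rt3, h.rt4]
  pp := by
    intro i j hij hh
    fin_cases i <;> fin_cases j <;> first | exact absurd rfl hij | skip
    · exact h.p12
    · exact absurd hh (by decide)
    · exact absurd hh (by decide)
    · exact comm0 h.p12
    · exact absurd hh (by decide)
    · exact absurd hh (by decide)
    · exact absurd hh (by decide)
    · exact absurd hh (by decide)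
    · exact h.p34
    · exact absurd hh (by decide)
    · exact absurd hh (by decide)
    · exact comm0 h.p34
  pq0 := by
    intro i g hg
    fin_cases i <;> fin_cases g <;> first | exact absurd rfl hg | skip
    exacts [h.p1r, h.p2r, h.p3q, h.p4q]
  qq := by
    intro i g hg
    fin_cases i <;> fin_cases g <;> first | exact absurd rfl hg | skip
    exacts [h.qr, comm0 h.qr]
  qt2 := by
    intro g j hg
    fin_cases g <;> fin_cases j <;> first | exact absurd rfl hg | skip
    exacts [h.qt3, h.qt4, h.swapH.qt3, h.swapH.qt4]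
  qz3 := by
    intro g; fin_cases g
    exacts [h.qz3, h.swapH.qz3]
  q4 := by
    intro g; fin_cases g
    · exact ⟨2, 3, h.q4⟩
    · exact ⟨0, 1, h.swapH.q4⟩
  pq2 := by
    intro g; fin_cases g
    · exact ⟨2, 3, h.pq2⟩
    · exact ⟨2, 3, h.swap12.pq2⟩
    · exact ⟨0, 1, h.swapH.pq2⟩
    · exact ⟨0, 1, h.swap34.swapH.pq2⟩
  pt4 := by
    intro i j hij
    fin_cases i <;> fin_cases j <;> first | exact absurd rfl hij | skip
    exacts [h.pt2_4, h.pt3_4, h.pt4_4, h.swap12.pt2_4, h.swap12.pt3_4, h.swap12.pt4_4,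
      h.swapH.pt3_4, h.swapH.pt4_4, h.swapH.pt2_4, h.swap34.swapH.pt3_4, h.swap34.swapH.pt4_4,
      h.swap34.swapH.pt2_4]
  pz5 := by
    intro i; fin_cases i
    exacts [h.pz5, h.swap12.pz5, h.swapH.pz5, h.swap34.swapH.pz5]
  ppt2 := by
    intro i l j h1 h2 h3
    fin_cases i <;> fin_cases l <;> first | exact absurd rfl h1 | skip
    all_goals fin_cases j <;> first | exact absurd rfl h2 | exact absurd rfl h3 | skip
    · exact h.ppt2
    · exact h.ppt4
    · exact h.swap34.ppt2
    · exact h.swap34.ppt4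
    · exact h.swap12.ppt2
    · exact h.swap12.ppt4
    · exact h.swap12.swap34.ppt2
    · exact h.swap12.swap34.ppt4
    · exact comm1 h.ppt2
    · exact comm1 h.ppt4
    · exact comm1 h.swap12.ppt2
    · exact comm1 h.swap12.ppt4
    · exact comm1 h.swap34.ppt2
    · exact comm1 h.swap34.ppt4
    · exact comm1 h.swap12.swap34.ppt2
    · exact comm1 h.swap12.swap34.ppt4
  ppz3 := by
    intro i l h1
    fin_cases i <;> fin_cases l <;> first | exact absurd rfl h1 | skip
    · exact h.ppz3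
    · exact h.swap34.ppz3
    · exact h.swap12.ppz3
    · exact h.swap12.swap34.ppz3
    · exact comm2 h.ppz3
    · exact comm2 h.swap12.ppz3
    · exact comm2 h.swap34.ppz3
    · exact comm2 h.swap12.swap34.ppz3
  t6 := by
    intro j; fin_cases j
    exacts [h.swapH.swap34.t4_6, h.swapH.t4_6, h.swap34.t4_6, h.t4_6]
  z7 := h.z7
  psq := by
    intro i; fin_cases i
    · exact ⟨1, 2, 3, h.psq⟩
    · exact ⟨0, 2, 3, h.swap12.psq⟩
    · exact ⟨3, 0, 1, h.swapH.psq⟩
    · exact ⟨2, 0, 1, h.swap34.swapH.psq⟩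

/-- The standard monomials. -/
inductive Std (p t : Fin 4 → Q) (q : Fin 2 → Q) (z : Q) : ℕ → Q → Prop
  | zz (n k : ℕ) (hk : k ≤ 6) (hn : n = k) : Std p t q z n (z ^ k)
  | tk (n : ℕ) (j : Fin 4) (k : ℕ) (h1 : 1 ≤ k) (hk : k ≤ 5) (hn : n = k) :
      Std p t q z n (t j ^ k)
  | qz (n : ℕ) (h : Fin 2) (a b : ℕ) (h1 : 1 ≤ a) (ha : a ≤ 3) (hb : b ≤ 2) (hn : n = a + b) :
      Std p t q z n (q h ^ a * z ^ b)
  | qt (n : ℕ) (h : Fin 2) (j : Fin 4) (a : ℕ) (hj : hf j ≠ h) (h1 : 1 ≤ a) (ha : a ≤ 3)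
      (hn : n = a + 1) : Std p t q z n (q h ^ a * t j)
  | pz (n : ℕ) (i : Fin 4) (b : ℕ) (hb : b ≤ 4) (hn : n = 1 + b) : Std p t q z n (p i * z ^ b)
  | pt (n : ℕ) (i j : Fin 4) (c : ℕ) (hij : i ≠ j) (h1 : 1 ≤ c) (hc : c ≤ 3) (hn : n = 1 + c) :
      Std p t q z n (p i * t j ^ c)
  | pqz (n : ℕ) (i : Fin 4) (b : ℕ) (hb : b ≤ 2) (hn : n = 2 + b) :
      Std p t q z n (p i * q (hf i) * z ^ b)
  | pqt (n : ℕ) (i j : Fin 4) (hij : hf j ≠ hf i) (hn : n = 3) :
      Std p t q z n (p i * q (hf i) * t j)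
  | ppz (n : ℕ) (i l : Fin 4) (b : ℕ) (hi : hf i = 0) (hl : hf l = 1) (hb : b ≤ 2)
      (hn : n = 2 + b) : Std p t q z n (p i * p l * z ^ b)
  | ppt (n : ℕ) (i l j : Fin 4) (hi : hf i = 0) (hl : hf l = 1) (h1 : j ≠ i) (h2 : j ≠ l)
      (hn : n = 3) : Std p t q z n (p i * p l * t j)

variable [Algebra ℚ Q]

/-- The span of the standard monomials of degree `n`. -/
def W (p t : Fin 4 → Q) (q : Fin 2 → Q) (z : Q) (n : ℕ) : Submodule ℚ Q :=
  Submodule.span ℚ {x | Std p t q z n x}

section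

variable {p t : Fin 4 → Q} {q : Fin 2 → Q} {z : Q}

theorem Std.mem {n : ℕ} {x : Q} (h : Std p t q z n x) : x ∈ W p t q z n :=
  Submodule.subset_span h

theorem W_mul_of {n m : ℕ} (y : Q) (h : ∀ x, Std p t q z n x → y * x ∈ W p t q z m) :
    ∀ x ∈ W p t q z n, y * x ∈ W p t q z m := by
  intro x hx
  have : W p t q z n ≤ (W p t q z m).comap (LinearMap.mulLeft ℚ y) := by
    refine Submodule.span_le.2 ?_
    intro x hx
    exact h x hx
  exact this hx

theorem W_mem_of_eq {n : ℕ} {x y : Q} (hx : x ∈ W p t q z n) (h : y = x) :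
    y ∈ W p t q z n := h ▸ hx

theorem W_zero {n : ℕ} {y : Q} (h : y = 0) : y ∈ W p t q z n := h ▸ zero_mem _

theorem z_mul (R : RF p t q z) {n : ℕ} : ∀ x ∈ W p t q z n, z * x ∈ W p t q z (n + 1) := by
  refine W_mul_of _ ?_
  intro x hx
  cases hx with
  | zz k hk hn =>
    subst hn
    by_cases h : n + 1 ≤ 6
    · exact W_mem_of_eq (Std.zz _ (n + 1) h rfl).mem (by ring)
    · have : n = 6 := by omega
      subst this
      exact W_zero (by linear_combination R.z7)
  | tk j k h1 hk hn =>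
    obtain ⟨k, rfl⟩ := Nat.exists_eq_add_of_le h1
    exact W_zero (by linear_combination t j ^ k * R.zt j)
  | qz h a b h1 ha hb hn =>
    by_cases hb2 : b + 1 ≤ 2
    · exact W_mem_of_eq (Std.qz _ h a (b + 1) h1 ha hb2 (by omega)).mem (by ring)
    · have : b = 2 := by omega
      subst this
      obtain ⟨a, rfl⟩ := Nat.exists_eq_add_of_le h1
      exact W_zero (by linear_combination q h ^ a * R.qz3 h)
  | qt h j a hj h1 ha hn =>
    exact W_zero (by linear_combination q h ^ a * R.zt j)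
  | pz i b hb hn =>
    by_cases hb2 : b + 1 ≤ 4
    · exact W_mem_of_eq (Std.pz _ i (b + 1) hb2 (by omega)).mem (by ring)
    · have : b = 4 := by omega
      subst this
      exact W_zero (by linear_combination R.pz5 i)
  | pt i j c hij h1 hc hn =>
    obtain ⟨k, rfl⟩ := Nat.exists_eq_add_of_le h1
    exact W_zero (by linear_combination p i * t j ^ k * R.zt j)
  | pqz i b hb hn =>
    by_cases hb2 : b + 1 ≤ 2
    · exact W_mem_of_eq (Std.pqz _ i (b + 1) hb2 (by omega)).mem (by ring)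
    · have : b = 2 := by omega
      subst this
      exact W_zero (by linear_combination p i * R.qz3 (hf i))
  | pqt i j hij hn =>
    exact W_zero (by linear_combination p i * q (hf i) * R.zt j)
  | ppz i l b hi hl hb hn =>
    by_cases hb2 : b + 1 ≤ 2
    · exact W_mem_of_eq (Std.ppz _ i l (b + 1) hi hl hb2 (by omega)).mem (by ring)
    · have : b = 2 := by omega
      subst this
      exact W_zero (by linear_combination R.ppz3 i l (by rw [hi, hl]; decide))
  | ppt i l j hi hl h1 h2 hn =>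
    exact W_zero (by linear_combination p i * p l * R.zt j)

theorem t_mul (R : RF p t q z) (j : Fin 4) {n : ℕ} :
    ∀ x ∈ W p t q z n, t j * x ∈ W p t q z (n + 1) := by
  refine W_mul_of _ ?_
  intro x hx
  cases hx with
  | zz k hk hn =>
    subst hn
    rcases Nat.eq_zero_or_pos n with h | h
    · subst h
      exact W_mem_of_eq (Std.tk _ j 1 le_rfl (by norm_num) rfl).mem (by ring)
    · obtain ⟨k, rfl⟩ := Nat.exists_eq_add_of_le h
      exact W_zero (by linear_combination z ^ k * R.zt j)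
  | tk l k h1 hk hn =>
    subst hn
    by_cases hjl : j = l
    · subst hjl
      by_cases h : n + 1 ≤ 5
      · exact W_mem_of_eq (Std.tk _ j (n + 1) (by omega) h rfl).mem (by ring)
      · have : n = 5 := by omega
        subst this
        exact W_mem_of_eq (neg_mem (Std.zz _ 6 le_rfl rfl).mem) (by linear_combination R.t6 j)
    · obtain ⟨k, rfl⟩ := Nat.exists_eq_add_of_le h1
      exact W_zero (by linear_combination t l ^ k * R.tt j l hjl)
  | qz h a b h1 ha hb hn =>
    rcases Nat.eq_zero_or_pos b with hb0 | hb0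
    · subst hb0
      by_cases hj : hf j = h
      · subst hj
        obtain ⟨a, rfl⟩ := Nat.exists_eq_add_of_le h1
        exact W_zero (by linear_combination q (hf j) ^ a * R.qt0 j)
      · exact W_mem_of_eq (Std.qt _ h j a hj h1 ha (by omega)).mem (by ring)
    · obtain ⟨b, rfl⟩ := Nat.exists_eq_add_of_le hb0
      exact W_zero (by linear_combination q h ^ a * z ^ b * R.zt j)
  | qt h l a hj h1 ha hn =>
    by_cases hjl : j = l
    · subst hjl
      obtain ⟨a, rfl⟩ := Nat.exists_eq_add_of_le h1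
      exact W_mem_of_eq (neg_mem (Std.qz _ h (1 + a) 2 h1 ha le_rfl (by omega)).mem)
        (by linear_combination q h ^ a * R.qt2 h j hj)
    · exact W_zero (by linear_combination q h ^ a * R.tt j l hjl)
  | pz i b hb hn =>
    rcases Nat.eq_zero_or_pos b with hb0 | hb0
    · subst hb0
      by_cases hj : i = j
      · subst hj
        exact W_zero (by linear_combination R.pt i)
      · exact W_mem_of_eq (Std.pt _ i j 1 hj le_rfl (by norm_num) (by omega)).mem (by ring)
    · obtain ⟨b, rfl⟩ := Nat.exists_eq_add_of_le hb0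
      exact W_zero (by linear_combination p i * z ^ b * R.zt j)
  | pt i l c hij h1 hc hn =>
    by_cases hjl : j = l
    · subst hjl
      by_cases h : c + 1 ≤ 3
      · exact W_mem_of_eq (Std.pt _ i j (c + 1) hij (by omega) h (by omega)).mem (by ring)
      · have : c = 3 := by omega
        subst this
        exact W_mem_of_eq (neg_mem (Std.pz _ i 4 le_rfl (by omega)).mem)
          (by linear_combination R.pt4 i j hij)
    · obtain ⟨k, rfl⟩ := Nat.exists_eq_add_of_le h1
      exact W_zero (by linear_combination p i * t l ^ k * R.tt j l hjl)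
  | pqz i b hb hn =>
    rcases Nat.eq_zero_or_pos b with hb0 | hb0
    · subst hb0
      by_cases hj : hf j = hf i
      · exact W_zero (by rw [← hj]; linear_combination p i * R.qt0 j)
      · exact W_mem_of_eq (Std.pqt _ i j hj (by omega)).mem (by ring)
    · obtain ⟨b, rfl⟩ := Nat.exists_eq_add_of_le hb0
      exact W_zero (by linear_combination p i * q (hf i) * z ^ b * R.zt j)
  | pqt i l hij hn =>
    by_cases hjl : j = l
    · subst hjl
      exact W_mem_of_eq (neg_mem (Std.pqz _ i 2 le_rfl (by omega)).mem)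
        (by linear_combination p i * R.qt2 (hf i) j hij)
    · exact W_zero (by linear_combination p i * q (hf i) * R.tt j l hjl)
  | ppz i l b hi hl hb hn =>
    rcases Nat.eq_zero_or_pos b with hb0 | hb0
    · subst hb0
      by_cases h1 : j = i
      · subst h1
        exact W_zero (by linear_combination p l * R.pt j)
      by_cases h2 : j = l
      · subst h2
        exact W_zero (by linear_combination p i * R.pt j)
      exact W_mem_of_eq (Std.ppt _ i l j hi hl h1 h2 (by omega)).mem (by ring)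
    · obtain ⟨b, rfl⟩ := Nat.exists_eq_add_of_le hb0
      exact W_zero (by linear_combination p i * p l * z ^ b * R.zt j)
  | ppt i l m hi hl h1 h2 hn =>
    by_cases hjl : j = m
    · subst hjl
      exact W_mem_of_eq (neg_mem (Std.ppz _ i l 2 hi hl le_rfl (by omega)).mem)
        (by linear_combination R.ppt2 i l j (by rw [hi, hl]; decide) h1 h2)
    · exact W_zero (by linear_combination p i * p l * R.tt j m hjl)

theorem z_pow_mul (R : RF p t q z) (b : ℕ) {n m : ℕ} (hm : m = n + b) :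
    ∀ x ∈ W p t q z n, z ^ b * x ∈ W p t q z m := by
  subst hm
  induction b with
  | zero => intro x hx; simpa using hx
  | succ b ih =>
    intro x hx
    exact W_mem_of_eq (z_mul R _ (ih x hx)) (by ring)

theorem t_pow_mul (R : RF p t q z) (j : Fin 4) (b : ℕ) {n m : ℕ} (hm : m = n + b) :
    ∀ x ∈ W p t q z n, t j ^ b * x ∈ W p t q z m := by
  subst hm
  induction b with
  | zero => intro x hx; simpa using hx
  | succ b ih =>
    intro x hx
    exact W_mem_of_eq (t_mul R j _ (ih x hx)) (by ring)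

/-- To show that `W` is closed under multiplication by `y` it suffices to look at the heads. -/
theorem closed_of_heads (R : RF p t q z) (y : Q)
    (h1 : y ∈ W p t q z 1)
    (h2 : ∀ (h : Fin 2) (a : ℕ), 1 ≤ a → a ≤ 3 → y * q h ^ a ∈ W p t q z (a + 1))
    (h3 : ∀ i, y * p i ∈ W p t q z 2)
    (h4 : ∀ i, y * (p i * q (hf i)) ∈ W p t q z 3)
    (h5 : ∀ i l, hf i = 0 → hf l = 1 → y * (p i * p l) ∈ W p t q z 3)
    {n : ℕ} : ∀ x ∈ W p t q z n, y * x ∈ W p t q z (n + 1) := by
  refine W_mul_of _ ?_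
  intro x hx
  cases hx with
  | zz k hk hn => exact W_mem_of_eq (z_pow_mul R k (by omega) _ h1) (by ring)
  | tk j k _ hk hn => exact W_mem_of_eq (t_pow_mul R j k (by omega) _ h1) (by ring)
  | qz h a b h1 ha hb hn =>
    exact W_mem_of_eq (z_pow_mul R b (by omega) _ (h2 h a h1 ha)) (by ring)
  | qt h j a hj h1 ha hn =>
    exact W_mem_of_eq (t_pow_mul R j 1 (by omega) _ (h2 h a h1 ha)) (by ring)
  | pz i b hb hn => exact W_mem_of_eq (z_pow_mul R b (by omega) _ (h3 i)) (by ring)
  | pt i j c hij _ hc hn => exact W_mem_of_eq (t_pow_mul R j c (by omega) _ (h3 i)) (by ring)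
  | pqz i b hb hn => exact W_mem_of_eq (z_pow_mul R b (by omega) _ (h4 i)) (by ring)
  | pqt i j hij hn => exact W_mem_of_eq (t_pow_mul R j 1 (by omega) _ (h4 i)) (by ring)
  | ppz i l b hi hl hb hn =>
    exact W_mem_of_eq (z_pow_mul R b (by omega) _ (h5 i l hi hl)) (by ring)
  | ppt i l j hi hl _ _ hn =>
    exact W_mem_of_eq (t_pow_mul R j 1 (by omega) _ (h5 i l hi hl)) (by ring)

theorem t_mem (j : Fin 4) : t j ∈ W p t q z 1 :=
  W_mem_of_eq (Std.tk 1 j 1 le_rfl (by norm_num) rfl).mem (by ring)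
theorem z_mem : z ∈ W p t q z 1 :=
  W_mem_of_eq (Std.zz 1 1 (by norm_num) rfl).mem (by ring)
theorem q_mem (h : Fin 2) : q h ∈ W p t q z 1 :=
  W_mem_of_eq (Std.qz 1 h 1 0 le_rfl (by norm_num) (by norm_num) rfl).mem (by ring)
theorem p_mem (i : Fin 4) : p i ∈ W p t q z 1 :=
  W_mem_of_eq (Std.pz 1 i 0 (by norm_num) rfl).mem (by ring)
theorem one_mem' : (1 : Q) ∈ W p t q z 0 :=
  W_mem_of_eq (Std.zz 0 0 (by norm_num) rfl).mem (by ring)

theorem W_nat_mul {n : ℕ} (m : ℕ) {x : Q} (hx : x ∈ W p t q z n) :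
    (m : Q) * x ∈ W p t q z n := by
  rw [← nsmul_eq_mul]
  exact nsmul_mem hx m

theorem q_pow_mem (R : RF p t q z) (h : Fin 2) (a : ℕ) (h1 : 1 ≤ a) (h2 : a ≤ 4) :
    q h ^ a ∈ W p t q z a := by
  by_cases h3 : a ≤ 3
  · exact W_mem_of_eq (Std.qz a h a 0 h1 h3 (by norm_num) rfl).mem (by ring)
  · have h4 : a = 4 := by omega
    subst h4
    obtain ⟨j, l, e⟩ := R.q4 h
    have hq3 : q h ^ 3 ∈ W p t q z 3 :=
      W_mem_of_eq (Std.qz 3 h 3 0 (by norm_num) le_rfl (by norm_num) rfl).mem (by ring)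
    have hq2 : q h ^ 2 ∈ W p t q z 2 :=
      W_mem_of_eq (Std.qz 2 h 2 0 (by norm_num) (by norm_num) (by norm_num) rfl).mem (by ring)
    have m1 := W_nat_mul 4 (t_mul R j _ hq3)
    have m2 := W_nat_mul 4 (t_mul R l _ hq3)
    have m3 := W_nat_mul 4 (z_mul R _ hq3)
    have m4 := W_nat_mul 6 (z_pow_mul R 2 (m := 4) rfl _ hq2)
    have m5 := (Std.tk (p := p) (q := q) (z := z) (t := t) 4 j 4 (by norm_num) (by norm_num)
      rfl).mem
    have m6 := (Std.tk (p := p) (q := q) (z := z) (t := t) 4 l 4 (by norm_num) (by norm_num)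
      rfl).mem
    have m7 := (Std.zz (p := p) (q := q) (z := z) (t := t) 4 4 (by norm_num) rfl).mem
    refine W_mem_of_eq (sub_mem (sub_mem (sub_mem (sub_mem (sub_mem (sub_mem m4 m1) m2) m3) m5)
      m6) m7) ?_
    rw [e]
    push_cast
    ring

theorem q_mul (R : RF p t q z) (g : Fin 2) {n : ℕ} :
    ∀ x ∈ W p t q z n, q g * x ∈ W p t q z (n + 1) := by
  refine closed_of_heads R (q g) (q_mem g) ?_ ?_ ?_ ?_
  · intro h a h1 h2
    by_cases hg : g = h
    · subst hg
      exact W_mem_of_eq (q_pow_mem R g (a + 1) (by omega) (by omega)) (by ring)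
    · obtain ⟨a, rfl⟩ := Nat.exists_eq_add_of_le h1
      exact W_zero (by linear_combination q h ^ a * R.qq g h hg)
  · intro i
    by_cases hg : g = hf i
    · subst hg
      exact W_mem_of_eq (Std.pqz 2 i 0 (by norm_num) rfl).mem (by ring)
    · exact W_zero (by linear_combination R.pq0 i g hg)
  · intro i
    by_cases hg : g = hf i
    · subst hg
      obtain ⟨j, l, e⟩ := R.pq2 i
      have hpq : p i * q (hf i) ∈ W p t q z 2 :=
        W_mem_of_eq (Std.pqz 2 i 0 (by norm_num) rfl).mem (by ring)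
      have m1 := W_nat_mul 2 (t_mul R j _ hpq)
      have m2 := W_nat_mul 2 (t_mul R l _ hpq)
      have m3 := W_nat_mul 2 (z_mul R _ hpq)
      have m4 := t_pow_mul R j 2 (m := 3) rfl _ (p_mem i)
      have m5 := t_pow_mul R l 2 (m := 3) rfl _ (p_mem i)
      have m6 := z_pow_mul R 2 (m := 3) rfl _ (p_mem i)
      refine W_mem_of_eq (neg_mem (add_mem (add_mem (add_mem (add_mem (add_mem m1 m2) m3) m4) m5)
        m6)) ?_
      push_cast
      linear_combination e
    · exact W_zero (by linear_combination q (hf i) * R.pq0 i g hg)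
  · intro i l hi hl
    by_cases hg : g = 0
    · exact W_zero (by linear_combination p i * R.pq0 l g (by rw [hg, hl]; decide))
    · exact W_zero (by linear_combination p l * R.pq0 i g (by rw [hi]; exact hg))

theorem q_pow_mul (R : RF p t q z) (g : Fin 2) (b : ℕ) {n m : ℕ} (hm : m = n + b) :
    ∀ x ∈ W p t q z n, q g ^ b * x ∈ W p t q z m := by
  subst hm
  induction b with
  | zero => intro x hx; simpa using hx
  | succ b ih =>
    intro x hx
    exact W_mem_of_eq (q_mul R g _ (ih x hx)) (by ring)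

theorem ppy (R : RF p t q z) (i : Fin 4) {n : ℕ} (y : Q) (hy : y ∈ W p t q z n)
    (hpy : p i * y ∈ W p t q z (n + 1)) : p i * (p i * y) ∈ W p t q z (n + 2) := by
  obtain ⟨j, l, m, e⟩ := R.psq i
  have a1 := W_nat_mul 2 (q_mul R (hf i) _ hpy)
  have a2 := W_nat_mul 2 (t_mul R j _ hpy)
  have a3 := W_nat_mul 2 (t_mul R l _ hpy)
  have a4 := W_nat_mul 2 (t_mul R m _ hpy)
  have a5 := W_nat_mul 2 (z_mul R _ hpy)
  have b1 := q_pow_mul R (hf i) 2 (m := n + 2) rfl _ hy
  have b2 := W_nat_mul 2 (q_mul R (hf i) _ (t_mul R l _ hy))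
  have b3 := W_nat_mul 2 (q_mul R (hf i) _ (t_mul R m _ hy))
  have b4 := W_nat_mul 2 (q_mul R (hf i) _ (z_mul R _ hy))
  have b5 := t_pow_mul R j 2 (m := n + 2) rfl _ hy
  have b6 := t_pow_mul R l 2 (m := n + 2) rfl _ hy
  have b7 := t_pow_mul R m 2 (m := n + 2) rfl _ hy
  have b8 := z_pow_mul R 2 (m := n + 2) rfl _ hy
  have A := add_mem (add_mem (add_mem (add_mem a1 a2) a3) a4) a5
  have B := add_mem (add_mem (add_mem (add_mem (add_mem (add_mem (add_mem b1 b2) b3) b4) b5) b6)
    b7) b8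
  refine W_mem_of_eq (neg_mem (add_mem A B)) ?_
  push_cast
  linear_combination y * e

theorem p_mul (R : RF p t q z) (g : Fin 4) {n : ℕ} :
    ∀ x ∈ W p t q z n, p g * x ∈ W p t q z (n + 1) := by
  have hpp : ∀ i l, hf i = 0 → hf l = 1 → p i * p l ∈ W p t q z 2 := fun i l hi hl =>
    W_mem_of_eq (Std.ppz 2 i l 0 hi hl (by norm_num) rfl).mem (by ring)
  have h01 : ∀ x : Fin 2, x = 0 ∨ x = 1 := by decide
  have h3 : ∀ i, p g * p i ∈ W p t q z 2 := by
    intro i
    by_cases hgi : g = i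
    · subst hgi
      exact W_mem_of_eq (ppy R g 1 one_mem' (W_mem_of_eq (p_mem g) (by ring))) (by ring)
    by_cases hh : hf g = hf i
    · exact W_zero (R.pp g i hgi hh)
    rcases h01 (hf g) with h0 | h0 <;> rcases h01 (hf i) with h1 | h1
    · exact absurd (h0.trans h1.symm) hh
    · exact hpp g i h0 h1
    · exact W_mem_of_eq (hpp i g h1 h0) (by ring)
    · exact absurd (h0.trans h1.symm) hh
  refine closed_of_heads R (p g) (p_mem g) ?_ h3 ?_ ?_
  · intro h a h1 h2
    exact W_mem_of_eq (q_pow_mul R h a (m := a + 1) (by omega) _ (p_mem g)) (by ring)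
  · intro i
    exact W_mem_of_eq (q_mul R (hf i) _ (h3 i)) (by ring)
  · intro i l hi hl
    by_cases hgi : g = i
    · subst hgi
      exact ppy R g (p l) (p_mem l) (h3 l)
    by_cases hgl : g = l
    · subst hgl
      exact W_mem_of_eq (ppy R g (p i) (p_mem i) (h3 i)) (by ring)
    rcases h01 (hf g) with h0 | h0
    · exact W_zero (by linear_combination p l * R.pp g i hgi (h0.trans hi.symm))
    · exact W_zero (by linear_combination p i * R.pp g l hgl (h0.trans hl.symm))

end

end Pool.Agent.FlagChow
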