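import Pool.Agent.Lib_MP_d3eb25_co.Data
import Pool.Agent.Lib_MP_d3eb25_co.Std

/-!
Upper bounds for the dimensions of the graded pieces of the Chow ring of the example.
-/

namespace Pool.Agent.FlagChow

open MvPolynomial

/-- Indices of the standard monomials. -/
inductive SI
  | zz (k : Fin 7)
  | tk (j : Fin 4) (k : Fin 5)
  | qz (h : Fin 2) (a : Fin 3) (b : Fin 3)
  | qt (h : Fin 2) (j : Fin 4) (a : Fin 3)
  | pz (i : Fin 4) (b : Fin 5)
  | pt (i j : Fin 4) (c : Fin 3)
  | pqz (i : Fin 4) (b : Fin 3)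
  | pqt (i j : Fin 4)
  | ppz (i l : Fin 4) (b : Fin 3)
  | ppt (i l j : Fin 4)
  deriving DecidableEq

/-- The indices of degree `n`. -/
def SI.list : ℕ → List SI := fun n =>
  ((List.finRange 7).filter (fun k : Fin 7 => (k : ℕ) = n)).map SI.zz ++
  (List.finRange 4).flatMap (fun j =>
    ((List.finRange 5).filter (fun k : Fin 5 => (k : ℕ) + 1 = n)).map (SI.tk j)) ++
  (List.finRange 2).flatMap (fun h => (List.finRange 3).flatMap (fun a : Fin 3 =>
    ((List.finRange 3).filter (fun b : Fin 3 => (a : ℕ) + 1 + b = n)).map (SI.qz h a))) ++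
  (List.finRange 2).flatMap (fun h =>
    ((List.finRange 4).filter (fun j : Fin 4 => hf j ≠ h)).flatMap
    (fun j => ((List.finRange 3).filter (fun a : Fin 3 => (a : ℕ) + 2 = n)).map (SI.qt h j))) ++
  (List.finRange 4).flatMap (fun i =>
    ((List.finRange 5).filter (fun b : Fin 5 => 1 + (b : ℕ) = n)).map (SI.pz i)) ++
  (List.finRange 4).flatMap (fun i => ((List.finRange 4).filter (fun j : Fin 4 => i ≠ j)).flatMap
    (fun j => ((List.finRange 3).filter (fun c : Fin 3 => 2 + (c : ℕ) = n)).map (SI.pt i j))) ++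
  (List.finRange 4).flatMap (fun i =>
    ((List.finRange 3).filter (fun b : Fin 3 => 2 + (b : ℕ) = n)).map (SI.pqz i)) ++
  (List.finRange 4).flatMap (fun i =>
    ((List.finRange 4).filter (fun j : Fin 4 => hf j ≠ hf i ∧ n = 3)).map (SI.pqt i)) ++
  ((List.finRange 4).filter (fun i : Fin 4 => hf i = 0)).flatMap (fun i =>
    ((List.finRange 4).filter (fun l : Fin 4 => hf l = 1)).flatMap (fun l =>
      ((List.finRange 3).filter (fun b : Fin 3 => 2 + (b : ℕ) = n)).map (SI.ppz i l))) ++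
  ((List.finRange 4).filter (fun i : Fin 4 => hf i = 0)).flatMap (fun i =>
    ((List.finRange 4).filter (fun l : Fin 4 => hf l = 1)).flatMap (fun l =>
      ((List.finRange 4).filter (fun j : Fin 4 => j ≠ i ∧ j ≠ l ∧ n = 3)).map (SI.ppt i l)))

theorem SI.list_length : ∀ n, n ≤ 6 → (SI.list n).length = hh n := by
  decide

variable {Q : Type*} [CommRing Q] [Algebra ℚ Q]

/-- The standard monomial of an index. -/
def SI.mon (p t : Fin 4 → Q) (q : Fin 2 → Q) (z : Q) : SI → Q
  | zz k => z ^ (k : ℕ)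
  | tk j k => t j ^ ((k : ℕ) + 1)
  | qz h a b => q h ^ ((a : ℕ) + 1) * z ^ (b : ℕ)
  | qt h j a => q h ^ ((a : ℕ) + 1) * t j
  | pz i b => p i * z ^ (b : ℕ)
  | pt i j c => p i * t j ^ ((c : ℕ) + 1)
  | pqz i b => p i * q (hf i) * z ^ (b : ℕ)
  | pqt i j => p i * q (hf i) * t j
  | ppz i l b => p i * p l * z ^ (b : ℕ)
  | ppt i l j => p i * p l * t j

section

variable {p t : Fin 4 → Q} {q : Fin 2 → Q} {z : Q}

omit [Algebra ℚ Q] in
theorem Std.exists_index {n : ℕ} {x : Q} (h : Std p t q z n x) :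
    ∃ s ∈ SI.list n, SI.mon p t q z s = x := by
  cases h with
  | zz k hk hn =>
    refine ⟨SI.zz ⟨k, by omega⟩, ?_, rfl⟩
    simp [SI.list, hn]
  | tk j k h1 hk hn =>
    refine ⟨SI.tk j ⟨k - 1, by omega⟩, ?_, ?_⟩
    · simp [SI.list]; omega
    · simp only [SI.mon]; congr 1; omega
  | qz h a b h1 ha hb hn =>
    refine ⟨SI.qz h ⟨a - 1, by omega⟩ ⟨b, by omega⟩, ?_, ?_⟩
    · simp [SI.list]; omega
    · simp only [SI.mon]; congr 2; omega
  | qt h j a hj h1 ha hn =>
    refine ⟨SI.qt h j ⟨a - 1, by omega⟩, ?_, ?_⟩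
    · simp [SI.list, hj]; omega
    · simp only [SI.mon]; congr 2; omega
  | pz i b hb hn =>
    refine ⟨SI.pz i ⟨b, by omega⟩, ?_, rfl⟩
    simp [SI.list]; omega
  | pt i j c hij h1 hc hn =>
    refine ⟨SI.pt i j ⟨c - 1, by omega⟩, ?_, ?_⟩
    · simp [SI.list, hij]; omega
    · simp only [SI.mon]; congr 2; omega
  | pqz i b hb hn =>
    refine ⟨SI.pqz i ⟨b, by omega⟩, ?_, rfl⟩
    simp [SI.list]; omega
  | pqt i j hij hn =>
    refine ⟨SI.pqt i j, ?_, rfl⟩
    simp [SI.list, hij, hn]
  | ppz i l b hi hl hb hn =>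
    refine ⟨SI.ppz i l ⟨b, by omega⟩, ?_, rfl⟩
    simp [SI.list, hi, hl]; omega
  | ppt i l j hi hl h1 h2 hn =>
    refine ⟨SI.ppt i l j, ?_, rfl⟩
    simp [SI.list, hi, hl, h1, h2, hn]

theorem finrank_W_le (n : ℕ) : Module.finrank ℚ (W p t q z n) ≤ hh n := by
  classical
  by_cases hn : n ≤ 6
  · have hle : W p t q z n ≤ Submodule.span ℚ
        (((SI.list n).map (SI.mon p t q z)).toFinset : Set Q) := by
      refine Submodule.span_mono ?_
      intro x hx
      obtain ⟨s, hs, rfl⟩ := Std.exists_index hx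
      simp only [List.coe_toFinset, Set.mem_ofPred_eq, List.mem_map]
      exact ⟨s, hs, rfl⟩
    refine (Submodule.finrank_mono hle).trans ?_
    refine (finrank_span_finset_le_card _).trans ?_
    refine (List.toFinset_card_le _).trans ?_
    rw [List.length_map, SI.list_length n hn]
  · have : W p t q z n = ⊥ := by
      rw [W, Submodule.span_eq_bot]
      intro x hx
      exfalso
      cases hx <;> omega
    rw [this]
    simp

end

/-- The quotient ring. -/
abbrev QQ : Type := MvPolynomial (Fin 19) ℚ ⧸ (Ideal.span rel19 : Ideal (MvPolynomial (Fin 19) ℚ))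

/-- The class of a variable. -/
noncomputable def xx (i : Fin 19) : QQ := Ideal.Quotient.mkₐ ℚ (Ideal.span rel19) (X i)

theorem xx_mul (i j : Fin 19) (h : nonNested i j = true) : xx i * xx j = 0 := by
  unfold xx
  rw [← map_mul]
  exact Ideal.Quotient.eq_zero_iff_mem.2 (Ideal.subset_span (Or.inl ⟨i, j, h, rfl⟩))

theorem xx_lin (a : Fin 8) : ∑ i : Fin 19, (if a ∈ gs i then xx i else 0) = 0 := by
  have h : (Ideal.Quotient.mkₐ ℚ (Ideal.span rel19)) (∑ i : Fin 19, if a ∈ gs i then X i else 0)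
      = 0 :=
    Ideal.Quotient.eq_zero_iff_mem.2 (Ideal.subset_span (Or.inr ⟨a, rfl⟩))
  rw [map_sum] at h
  refine Eq.trans (Finset.sum_congr rfl fun i _ => ?_) h
  split_ifs
  · rfl
  · rw [map_zero]

theorem xx_lin' (a : Fin 8) (s : Finset (Fin 19))
    (hs : (Finset.univ.filter fun i => a ∈ gs i) = s) : ∑ i ∈ s, xx i = 0 := by
  rw [← xx_lin a, ← hs, Finset.sum_filter]

/-- The variables of pairs. -/
noncomputable def vp : Fin 4 → QQ := ![xx 8, xx 9, xx 10, xx 11]
/-- The variables of complements of pairs. -/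
noncomputable def vt : Fin 4 → QQ := ![xx 14, xx 15, xx 16, xx 17]
/-- The variables of halves. -/
noncomputable def vq : Fin 2 → QQ := ![xx 12, xx 13]

theorem at0 : xx 0 = -(xx 8 + xx 12 + xx 15 + xx 16 + xx 17 + xx 18) := by
  have := xx_lin' 0 {0, 8, 12, 15, 16, 17, 18} (by decide)
  repeat rw [Finset.sum_insert (by decide)] at this
  rw [Finset.sum_singleton] at this
  linear_combination this

theorem at1 : xx 1 = -(xx 8 + xx 12 + xx 15 + xx 16 + xx 17 + xx 18) := by
  have := xx_lin' 1 {1, 8, 12, 15, 16, 17, 18} (by decide)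
  repeat rw [Finset.sum_insert (by decide)] at this
  rw [Finset.sum_singleton] at this
  linear_combination this

theorem at2 : xx 2 = -(xx 9 + xx 12 + xx 14 + xx 16 + xx 17 + xx 18) := by
  have := xx_lin' 2 {2, 9, 12, 14, 16, 17, 18} (by decide)
  repeat rw [Finset.sum_insert (by decide)] at this
  rw [Finset.sum_singleton] at this
  linear_combination this

theorem at3 : xx 3 = -(xx 9 + xx 12 + xx 14 + xx 16 + xx 17 + xx 18) := by
  have := xx_lin' 3 {3, 9, 12, 14, 16, 17, 18} (by decide)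
  repeat rw [Finset.sum_insert (by decide)] at this
  rw [Finset.sum_singleton] at this
  linear_combination this

theorem at4 : xx 4 = -(xx 10 + xx 13 + xx 14 + xx 15 + xx 17 + xx 18) := by
  have := xx_lin' 4 {4, 10, 13, 14, 15, 17, 18} (by decide)
  repeat rw [Finset.sum_insert (by decide)] at this
  rw [Finset.sum_singleton] at this
  linear_combination this

theorem at5 : xx 5 = -(xx 10 + xx 13 + xx 14 + xx 15 + xx 17 + xx 18) := by
  have := xx_lin' 5 {5, 10, 13, 14, 15, 17, 18} (by decide)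
  repeat rw [Finset.sum_insert (by decide)] at this
  rw [Finset.sum_singleton] at this
  linear_combination this

theorem at6 : xx 6 = -(xx 11 + xx 13 + xx 14 + xx 15 + xx 16 + xx 18) := by
  have := xx_lin' 6 {6, 11, 13, 14, 15, 16, 18} (by decide)
  repeat rw [Finset.sum_insert (by decide)] at this
  rw [Finset.sum_singleton] at this
  linear_combination this

theorem at7 : xx 7 = -(xx 11 + xx 13 + xx 14 + xx 15 + xx 16 + xx 18) := by
  have := xx_lin' 7 {7, 11, 13, 14, 15, 16, 18} (by decide)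
  repeat rw [Finset.sum_insert (by decide)] at this
  rw [Finset.sum_singleton] at this
  linear_combination this

theorem RR : R (vp 0) (vp 1) (vp 2) (vp 3) (vq 0) (vq 1) (vt 0) (vt 1) (vt 2) (vt 3) (xx 18) where
  p12 := xx_mul 8 9 (by decide)
  p34 := xx_mul 10 11 (by decide)
  p3q := xx_mul 10 12 (by decide)
  p4q := xx_mul 11 12 (by decide)
  p1r := xx_mul 8 13 (by decide)
  p2r := xx_mul 9 13 (by decide)
  pt1 := xx_mul 8 14 (by decide)
  pt2 := xx_mul 9 15 (by decide)
  pt3 := xx_mul 10 16 (by decide)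
  pt4 := xx_mul 11 17 (by decide)
  qr := xx_mul 12 13 (by decide)
  qt1 := xx_mul 12 14 (by decide)
  qt2 := xx_mul 12 15 (by decide)
  rt3 := xx_mul 13 16 (by decide)
  rt4 := xx_mul 13 17 (by decide)
  t12 := xx_mul 14 15 (by decide)
  t13 := xx_mul 14 16 (by decide)
  t14 := xx_mul 14 17 (by decide)
  t23 := xx_mul 15 16 (by decide)
  t24 := xx_mul 15 17 (by decide)
  t34 := xx_mul 16 17 (by decide)
  s1 := by
    have h := xx_mul 0 1 (by decide)
    rw [at0, at1] at h
    change (xx 8 + xx 12 + xx 15 + xx 16 + xx 17 + xx 18) ^ 2 = 0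
    linear_combination h
  s2 := by
    have h := xx_mul 2 3 (by decide)
    rw [at2, at3] at h
    change (xx 9 + xx 12 + xx 14 + xx 16 + xx 17 + xx 18) ^ 2 = 0
    linear_combination h
  s3 := by
    have h := xx_mul 4 5 (by decide)
    rw [at4, at5] at h
    change (xx 10 + xx 13 + xx 14 + xx 15 + xx 17 + xx 18) ^ 2 = 0
    linear_combination h
  s4 := by
    have h := xx_mul 6 7 (by decide)
    rw [at6, at7] at h
    change (xx 11 + xx 13 + xx 14 + xx 15 + xx 16 + xx 18) ^ 2 = 0
    linear_combination h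
  u1 := by
    have h := xx_mul 0 14 (by decide)
    rw [at0] at h
    change (xx 8 + xx 12 + xx 15 + xx 16 + xx 17 + xx 18) * xx 14 = 0
    linear_combination -h
  u2 := by
    have h := xx_mul 2 15 (by decide)
    rw [at2] at h
    change (xx 9 + xx 12 + xx 14 + xx 16 + xx 17 + xx 18) * xx 15 = 0
    linear_combination -h
  u3 := by
    have h := xx_mul 4 16 (by decide)
    rw [at4] at h
    change (xx 10 + xx 13 + xx 14 + xx 15 + xx 17 + xx 18) * xx 16 = 0
    linear_combination -h
  u4 := by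
    have h := xx_mul 6 17 (by decide)
    rw [at6] at h
    change (xx 11 + xx 13 + xx 14 + xx 15 + xx 16 + xx 18) * xx 17 = 0
    linear_combination -h

/-- The span of the standard monomials of the Chow ring. -/
noncomputable def WW (n : ℕ) : Submodule ℚ QQ := W vp vt vq (xx 18) n

theorem xx_mul_mem (i : Fin 19) {n : ℕ} (x : QQ) (hx : x ∈ WW n) : xx i * x ∈ WW (n + 1) := by
  have RRF : RF vp vt vq (xx 18) := RF.of_R RR
  have mp : ∀ j, vp j * x ∈ WW (n + 1) := fun j => p_mul RRF j x hx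
  have mt : ∀ j, vt j * x ∈ WW (n + 1) := fun j => t_mul RRF j x hx
  have mq : ∀ j, vq j * x ∈ WW (n + 1) := fun j => q_mul RRF j x hx
  have mz : xx 18 * x ∈ WW (n + 1) := z_mul RRF x hx
  have key : ∀ (a b c d e : QQ), a * x ∈ WW (n + 1) → b * x ∈ WW (n + 1) → c * x ∈ WW (n + 1) →
      d * x ∈ WW (n + 1) → e * x ∈ WW (n + 1) →
      -(a + b + c + d + e + xx 18) * x ∈ WW (n + 1) := by
    intro a b c d e ha hb hc hd he
    have := neg_mem (add_mem (add_mem (add_mem (add_mem (add_mem ha hb) hc) hd) he) mz)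
    convert this using 1
    ring
  have m8 : xx 8 * x ∈ WW (n + 1) := mp 0
  have m9 : xx 9 * x ∈ WW (n + 1) := mp 1
  have m10 : xx 10 * x ∈ WW (n + 1) := mp 2
  have m11 : xx 11 * x ∈ WW (n + 1) := mp 3
  have m12 : xx 12 * x ∈ WW (n + 1) := mq 0
  have m13 : xx 13 * x ∈ WW (n + 1) := mq 1
  have m14 : xx 14 * x ∈ WW (n + 1) := mt 0
  have m15 : xx 15 * x ∈ WW (n + 1) := mt 1
  have m16 : xx 16 * x ∈ WW (n + 1) := mt 2
  have m17 : xx 17 * x ∈ WW (n + 1) := mt 3
  fin_cases i
  · change xx 0 * x ∈ _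
    rw [at0]; exact key _ _ _ _ _ m8 m12 m15 m16 m17
  · change xx 1 * x ∈ _
    rw [at1]; exact key _ _ _ _ _ m8 m12 m15 m16 m17
  · change xx 2 * x ∈ _
    rw [at2]; exact key _ _ _ _ _ m9 m12 m14 m16 m17
  · change xx 3 * x ∈ _
    rw [at3]; exact key _ _ _ _ _ m9 m12 m14 m16 m17
  · change xx 4 * x ∈ _
    rw [at4]; exact key _ _ _ _ _ m10 m13 m14 m15 m17
  · change xx 5 * x ∈ _
    rw [at5]; exact key _ _ _ _ _ m10 m13 m14 m15 m17
  · change xx 6 * x ∈ _
    rw [at6]; exact key _ _ _ _ _ m11 m13 m14 m15 m16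
  · change xx 7 * x ∈ _
    rw [at7]; exact key _ _ _ _ _ m11 m13 m14 m15 m16
  all_goals assumption

theorem monomial_mem (n : ℕ) : ∀ d : Fin 19 →₀ ℕ, d.degree = n →
    (Ideal.Quotient.mkₐ ℚ (Ideal.span rel19)) (monomial d 1) ∈ WW n := by
  induction n with
  | zero =>
    intro d hd
    have : d = 0 := (Finsupp.degree_eq_zero_iff d).1 hd
    subst this
    have h1 : (Ideal.Quotient.mkₐ ℚ (Ideal.span rel19)) (monomial (0 : Fin 19 →₀ ℕ) (1 : ℚ))
        = 1 := by
      rw [← C_apply, C_1, map_one]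
    rw [h1]
    exact one_mem'
  | succ n ih =>
    intro d hd
    have hne : d ≠ 0 := by
      rintro rfl
      simp at hd
    obtain ⟨i, hi⟩ := Finsupp.ne_iff.1 hne
    have hi' : d i ≠ 0 := by simpa using hi
    have hle : Finsupp.single i 1 ≤ d := by
      rw [Finsupp.single_le_iff]; omega
    obtain ⟨e, rfl⟩ := exists_add_of_le hle
    have he : e.degree = n := by
      rw [map_add, Finsupp.degree_single] at hd
      omega
    have h1 : (monomial (Finsupp.single i 1 + e) (1 : ℚ)) = X i * monomial e 1 := by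
      rw [X, monomial_mul, mul_one]
    rw [h1, map_mul]
    exact xx_mul_mem i _ (ih e he)

theorem piece19_le (n : ℕ) : piece19 n ≤ WW n := by
  rintro _ ⟨f, hf, rfl⟩
  have hf' : f.IsHomogeneous n := hf
  rw [AlgHom.toLinearMap_apply]
  have h1 : f = ∑ d ∈ f.support, coeff d f • monomial d (1 : ℚ) := by
    conv_lhs => rw [f.as_sum]
    refine Finset.sum_congr rfl fun d _ => ?_
    rw [smul_monomial, smul_eq_mul, mul_one]
  rw [h1, map_sum]
  refine sum_mem fun d hd => ?_
  rw [map_smul]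
  refine Submodule.smul_mem _ _ (monomial_mem n d ?_)
  have := hf' (mem_support_iff.1 hd)
  rw [← this, Finsupp.degree_eq_weight_one]
  rfl

instance WW_finite (n : ℕ) : FiniteDimensional ℚ (WW n) := by
  classical
  by_cases hn : n ≤ 6
  · have hle : WW n ≤ Submodule.span ℚ
        (((SI.list n).map (SI.mon vp vt vq (xx 18))).toFinset : Set QQ) := by
      refine Submodule.span_mono ?_
      intro x hx
      obtain ⟨s, hs, rfl⟩ := Std.exists_index hx
      simp only [List.coe_toFinset, Set.mem_ofPred_eq, List.mem_map]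
      exact ⟨s, hs, rfl⟩
    exact Submodule.finiteDimensional_of_le hle
  · have : WW n = ⊥ := by
      rw [WW, W, Submodule.span_eq_bot]
      intro x hx
      exfalso
      cases hx <;> omega
    rw [this]
    infer_instance

theorem upper (k : ℕ) : Module.finrank ℚ (piece19 k) ≤ hh k :=
  (Submodule.finrank_mono (piece19_le k)).trans (finrank_W_le k)

end Pool.Agent.FlagChow
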